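import Pool.Agent.Lib.MP_ffa969_co.Whit

set_option autoImplicit false
set_option linter.unusedSectionVars false

namespace Pool.Agent.Lib.MP_ffa969_co

open Module Submodule

variable {V E : Type} [Fintype V] [DecidableEq V] [Fintype E] [DecidableEq E]

lemma exists_low_deg {s t : E → V} (hW : Whit s t) (hne : ∀ e, s e ≠ t e) (hs : Simple s t)
    (S : Finset V) (hS : S.Nonempty) :
    ∃ v ∈ S, deg s t (Finset.univ.filter (fun e => s e ∈ S ∧ t e ∈ S)) v < 6 := by
  set X := Finset.univ.filter (fun e => s e ∈ S ∧ t e ∈ S) with hX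
  have h1 : verts s t X ⊆ S := by
    intro v hv
    obtain ⟨e, he, rfl | rfl⟩ := mem_verts.mp hv
    · exact (Finset.mem_filter.mp he).2.1
    · exact (Finset.mem_filter.mp he).2.2
  have h2 := sum_deg s t X S h1
  have h3 := Finset.card_le_card h1
  have h4 : 0 < S.card := hS.card_pos
  have h5 : X.card < 3 * S.card := by
    rcases X.eq_empty_or_nonempty with h | h
    · rw [h]; simpa using hS
    · have := sparse hW hne hs X h; omega
  by_contra hn
  push Not at hn
  have h6 : ∑ _v ∈ S, 6 ≤ ∑ v ∈ S, deg s t X v := Finset.sum_le_sum hn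
  simp only [Finset.sum_const, smul_eq_mul] at h6
  omega

lemma exists_forest_colouring_aux {s t : E → V} (hW : Whit s t) (hne : ∀ e, s e ≠ t e)
    (hs : Simple s t) (S : Finset V) :
    ∃ φ : V → Fin 3, Acyc s t {e | s e ∈ S ∧ t e ∈ S ∧ φ (s e) = φ (t e)} := by
  induction S using Finset.strongInduction with
  | H S ih =>
  rcases S.eq_empty_or_nonempty with rfl | hS
  · refine ⟨fun _ => 0, fun C hC _ => ?_⟩
    ext e; exact hC e (by simp)
  obtain ⟨v, hv, hd⟩ := exists_low_deg hW hne hs S hS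
  obtain ⟨φ, hφ⟩ := ih _ (Finset.erase_ssubset hv)
  rw [deg_eq_card hne] at hd
  obtain ⟨c, -, hc⟩ := Finset.exists_card_fiber_lt_of_card_lt_mul
    (t := (Finset.univ : Finset (Fin 3))) (n := 2)
    (f := fun e => if s e = v then φ (t e) else φ (s e))
    (s := ((Finset.univ.filter (fun e => s e ∈ S ∧ t e ∈ S)).filter
      (fun e => s e = v ∨ t e = v))) (by simpa using hd)
  refine ⟨Function.update φ v c, fun C hC h0 => hφ C ?_ h0⟩
  set D := ((Finset.univ.filter (fun e => s e ∈ S ∧ t e ∈ S)).filter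
    (fun e => s e = v ∨ t e = v)).filter
    (fun e => (if s e = v then φ (t e) else φ (s e)) = c) with hD
  have hDm : ∀ e, (s e = v ∨ t e = v) → C e ≠ 0 → e ∈ D := by
    intro e he hCe
    have h1 : e ∈ {e | s e ∈ S ∧ t e ∈ S ∧
        Function.update φ v c (s e) = Function.update φ v c (t e)} := by
      by_contra h; exact hCe (hC e h)
    obtain ⟨h1, h2, h3⟩ := h1
    simp only [hD, Finset.mem_filter, Finset.mem_univ, true_and]
    refine ⟨⟨⟨h1, h2⟩, he⟩, ?_⟩
    have := hne e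
    rcases he with rfl | rfl
    · simpa [Function.update_of_ne this.symm] using h3.symm
    · simpa [Function.update_of_ne this, this] using h3
  have hv0 : ∀ e, (s e = v ∨ t e = v) → C e = 0 := by
    intro e he
    by_contra hCe
    have h1 := congrFun h0 v
    rw [Finset.sum_apply, Finset.sum_eq_single e] at h1
    · have h2 : bv s t e v = 1 := by
        have := hne e
        rcases he with rfl | rfl
        · simp [bv, this.symm]
        · simp [bv, this]
      simp [h2] at h1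
      exact hCe h1
    · intro e' _ hee
      by_cases he' : s e' = v ∨ t e' = v
      · have : C e' = 0 := by
          by_contra h
          exact hee (Finset.card_le_one.mp (Nat.lt_succ_iff.mp hc) _ (hDm e' he' h) _
            (hDm e he hCe))
        simp [this]
      · push Not at he'
        simp [bv_eq_zero he'.1 he'.2]
    · simp
  intro e he
  by_cases h : s e = v ∨ t e = v
  · exact hv0 e h
  · push Not at h
    apply hC
    rintro ⟨h1, h2, h3⟩
    rw [Function.update_of_ne h.1, Function.update_of_ne h.2] at h3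
    exact he ⟨Finset.mem_erase.mpr ⟨h.1, h1⟩, Finset.mem_erase.mpr ⟨h.2, h2⟩, h3⟩

lemma exists_forest_colouring {s t : E → V} (hW : Whit s t) (hne : ∀ e, s e ≠ t e)
    (hs : Simple s t) :
    ∃ φ : V → Fin 3, Acyc s t (monoE s t φ : Set E) ∧
      ∀ v, (∃ e, s e = v ∨ t e = v) → ∃ e, (s e = v ∨ t e = v) ∧ φ (s e) ≠ φ (t e) := by
  classical
  have h0 : ∃ n, ∃ φ : V → Fin 3, Acyc s t (monoE s t φ : Set E) ∧ (monoE s t φ).card = n := by
    obtain ⟨φ, h⟩ := exists_forest_colouring_aux hW hne hs Finset.univ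
    exact ⟨_, φ, h.mono (by intro e he; simpa [monoE] using he), rfl⟩
  obtain ⟨φ, h1, h2⟩ := Nat.find_spec h0
  refine ⟨φ, h1, ?_⟩
  rintro v ⟨e0, he0⟩
  by_contra hn
  push Not at hn
  have hc : ∀ a : Fin 3, a + 1 ≠ a := by decide
  have h3 : ∀ e, (s e = v ∨ t e = v) → e ∉ monoE s t (Function.update φ v (φ v + 1)) := by
    intro e he hm
    have h4 := hn e he
    have h5 := hne e
    simp only [monoE, Finset.mem_filter, Finset.mem_univ, true_and] at hm
    rcases he with rfl | rfl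
    · rw [Function.update_self, Function.update_of_ne h5.symm, ← h4] at hm
      exact hc _ hm
    · rw [Function.update_self, Function.update_of_ne h5, h4] at hm
      exact hc _ hm.symm
  have h4 : monoE s t (Function.update φ v (φ v + 1)) ⊂ monoE s t φ := by
    refine ⟨fun e he => ?_, fun h => h3 e0 he0 (h (by simpa [monoE] using hn e0 he0))⟩
    by_cases h : s e = v ∨ t e = v
    · exact (h3 e h he).elim
    · push Not at h
      simpa [monoE, Function.update_of_ne h.1, Function.update_of_ne h.2] using he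
  have h5 := Finset.card_lt_card h4
  exact Nat.find_min h0 (h2 ▸ h5) ⟨_, h1.mono (by exact_mod_cast h4.subset), rfl⟩

lemma exists_good_leaf {s t : E → V} (hne : ∀ e, s e ≠ t e) (φ : V → Fin 3) (c : Fin 3)
    (M : Finset E) (hM : M.Nonempty) (h : LinearIndependent F (fun e : M => wv s t φ c e.1)) :
    ∃ e ∈ M, ∃ v, ((s e = v ∧ φ (t e) ≠ c) ∨ (t e = v ∧ φ (s e) ≠ c)) ∧
      ∀ e' ∈ M, (s e' = v ∨ t e' = v) → e' = e := by
  have hboth : ∀ e ∈ M, ¬ (φ (s e) = c ∧ φ (t e) = c) := by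
    rintro e he ⟨h1, h2⟩
    apply h.ne_zero ⟨e, he⟩
    ext v; simp [wv, h1, h2]
  have hw : ∀ e ∈ M, ∀ v, (s e = v ∨ t e = v) → φ v = c → wv s t φ c e = Pi.single v 1 := by
    intro e he v hv hc
    have := hboth e he
    ext x
    rcases hv with rfl | rfl
    · have h2 : φ (t e) ≠ c := fun h => this ⟨hc, h⟩
      simp [wv, hc, h2, Pi.single_apply, eq_comm]
    · have h2 : φ (s e) ≠ c := fun h => this ⟨h, hc⟩
      simp [wv, hc, h2, Pi.single_apply, eq_comm]
  by_cases hc : ∃ e ∈ M, ∃ v, (s e = v ∨ t e = v) ∧ φ v = c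
  · obtain ⟨e, he, v, hv, hc⟩ := hc
    refine ⟨e, he, v, ?_, fun e' he' hv' => ?_⟩
    · have := hboth e he
      rcases hv with rfl | rfl
      · exact Or.inl ⟨rfl, fun h => this ⟨hc, h⟩⟩
      · exact Or.inr ⟨rfl, fun h => this ⟨h, hc⟩⟩
    · have := h.injective (a₁ := ⟨e', he'⟩) (a₂ := ⟨e, he⟩)
        ((hw e' he' v hv' hc).trans (hw e he v hv hc).symm)
      exact congrArg Subtype.val this
  · push Not at hc
    have h1 : (fun e : M => wv s t φ c e.1) = fun e : M => bv s t e.1 := by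
      ext1 e
      exact wv_eq_bv (hc e.1 e.2 _ (Or.inl rfl)) (hc e.1 e.2 _ (Or.inr rfl))
    rw [h1] at h
    obtain ⟨v, hv⟩ := exists_leaf hM h
    rw [deg_eq_card hne] at hv
    obtain ⟨e, he⟩ := Finset.card_eq_one.mp hv
    have h2 : e ∈ M.filter (fun e => s e = v ∨ t e = v) := by rw [he]; simp
    obtain ⟨h2, h3⟩ := Finset.mem_filter.mp h2
    refine ⟨e, h2, v, ?_, fun e' he' hv' => ?_⟩
    · rcases h3 with h3 | h3
      · exact Or.inl ⟨h3, hc e h2 _ (Or.inr rfl)⟩
      · exact Or.inr ⟨h3, hc e h2 _ (Or.inl rfl)⟩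
    · have : e' ∈ M.filter (fun e => s e = v ∨ t e = v) := Finset.mem_filter.mpr ⟨he', hv'⟩
      rw [he] at this
      simpa using this

lemma exists_orientation {s t : E → V} (hne : ∀ e, s e ≠ t e) (φ : V → Fin 3) (c : Fin 3)
    (M : Finset E) (h : LinearIndependent F (fun e : M => wv s t φ c e.1)) :
    ∃ (tl hd : E → V) (H : V → ℕ), ∀ e ∈ M,
      ((tl e = s e ∧ hd e = t e) ∨ (tl e = t e ∧ hd e = s e)) ∧ φ (hd e) ≠ c ∧
      H (tl e) < H (hd e) ∧ ∀ e' ∈ M, tl e' = tl e → e' = e := by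
  induction M using Finset.strongInduction with
  | H M ih =>
  rcases M.eq_empty_or_nonempty with rfl | hM
  · exact ⟨s, t, fun _ => 0, by simp⟩
  obtain ⟨e, he, v, hv, huniq⟩ := exists_good_leaf hne φ c M hM h
  obtain ⟨tl, hd, H, hH⟩ := ih _ (Finset.erase_ssubset he)
    (h.comp (fun x : M.erase e => (⟨x.1, Finset.mem_of_mem_erase x.2⟩ : M))
      (fun a b hab => Subtype.ext (congrArg (fun x : M => x.1) hab)))
  obtain ⟨w, hw1, hw2, hw3⟩ : ∃ w, ((v = s e ∧ w = t e) ∨ (v = t e ∧ w = s e)) ∧ φ w ≠ c ∧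
      w ≠ v := by
    rcases hv with ⟨rfl, h2⟩ | ⟨rfl, h2⟩
    · exact ⟨t e, Or.inl ⟨rfl, rfl⟩, h2, (hne e).symm⟩
    · exact ⟨s e, Or.inr ⟨rfl, rfl⟩, h2, hne e⟩
  have hoth : ∀ e' ∈ M, e' ≠ e → tl e' ≠ v ∧ hd e' ≠ v := by
    intro e' he' hne'
    have h1 := (hH e' (Finset.mem_erase.mpr ⟨hne', he'⟩)).1
    have h2 : ¬ (s e' = v ∨ t e' = v) := fun h => hne' (huniq e' he' h)
    push Not at h2
    rcases h1 with ⟨h3, h4⟩ | ⟨h3, h4⟩
    · rw [h3, h4]; exact h2
    · rw [h3, h4]; exact h2.symm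
  refine ⟨Function.update tl e v, Function.update hd e w,
    fun x => if x = v then 0 else H x + 1, fun e' he' => ?_⟩
  by_cases hee : e' = e
  · subst hee
    simp only [Function.update_self, if_true, if_neg hw3]
    refine ⟨hw1, hw2, Nat.succ_pos _, fun e'' he'' h => ?_⟩
    by_contra hn
    rw [Function.update_of_ne hn] at h
    exact (hoth e'' he'' hn).1 h
  · obtain ⟨h1, h2, h3, h4⟩ := hH e' (Finset.mem_erase.mpr ⟨hee, he'⟩)
    obtain ⟨h5, h6⟩ := hoth e' he' hee
    simp only [Function.update_of_ne hee, if_neg h5, if_neg h6]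
    refine ⟨h1, h2, Nat.succ_lt_succ h3, fun e'' he'' h => ?_⟩
    by_cases hn : e'' = e
    · subst hn
      rw [Function.update_self] at h
      exact (h5 h.symm).elim
    · rw [Function.update_of_ne hn] at h
      exact h4 e'' (Finset.mem_erase.mpr ⟨hn, he''⟩) h

/-- The combinatorial structure behind the ball cover. -/
theorem exists_structure {s t : E → V} (hW : Whit s t) (hne : ∀ e, s e ≠ t e) (hs : Simple s t) :
    ∃ (act : Fin 3 → V → Prop) (out : Fin 3 → V → V) (H : Fin 3 → V → ℕ),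
      (∀ c v, act c v → (∃ e, (s e = v ∧ t e = out c v) ∨ (t e = v ∧ s e = out c v)) ∧
        H c v < H c (out c v)) ∧
      ∀ e, ∃ u v, ((s e = u ∧ t e = v) ∨ (t e = u ∧ s e = v)) ∧
        ∃ c c', act c u ∧ out c u = v ∧ act c' v ∧ H c' v ≤ H c u := by
  classical
  obtain ⟨φ, hφ, hbi⟩ := exists_forest_colouring hW hne hs
  obtain ⟨χ, hχ⟩ := rado (fun c => wv s t φ c) (rank_ineq hW hne hs φ hφ)
  have h1 := fun c => exists_orientation hne φ c (Finset.univ.filter fun e => χ e = c)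
    ((hχ c).comp (fun x : (Finset.univ.filter fun e => χ e = c) =>
      (⟨x.1, (Finset.mem_filter.mp x.2).2⟩ : {e // χ e = c}))
      (fun a b hab => Subtype.ext (congrArg (fun x : {e // χ e = c} => x.1) hab)))
  choose tl hd H hH using h1
  simp only [Finset.mem_filter, Finset.mem_univ, true_and] at hH
  have h2 : ∀ v, ∃ w, (∃ e, s e = v ∨ t e = v) →
      (∃ e, (s e = v ∧ t e = w) ∨ (t e = v ∧ s e = w)) ∧ φ w ≠ φ v := by
    intro v
    by_cases hv : ∃ e, s e = v ∨ t e = v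
    · obtain ⟨e, rfl | rfl, he⟩ := hbi v hv
      · exact ⟨t e, fun _ => ⟨⟨e, Or.inl ⟨rfl, rfl⟩⟩, he.symm⟩⟩
      · exact ⟨s e, fun _ => ⟨⟨e, Or.inr ⟨rfl, rfl⟩⟩, he⟩⟩
    · exact ⟨v, fun h => (hv h).elim⟩
  choose nb hnb using h2
  refine ⟨fun c v => (∃ e, χ e = c ∧ tl c e = v) ∨ (φ v = c ∧ ∃ e, s e = v ∨ t e = v),
    fun c v => if h : ∃ e, χ e = c ∧ tl c e = v then hd c h.choose else nb v,
    fun c v => if φ v = c then 0 else H c v + 1, ?_, ?_⟩
  · intro c v hact
    by_cases h : ∃ e, χ e = c ∧ tl c e = v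
    · simp only [dif_pos h]
      obtain ⟨h3, h4⟩ := h.choose_spec
      obtain ⟨h5, h6, h7, -⟩ := hH c _ h3
      refine ⟨⟨h.choose, ?_⟩, ?_⟩
      · rcases h5 with ⟨a, b⟩ | ⟨a, b⟩
        · exact Or.inl ⟨a.symm.trans h4, b.symm⟩
        · exact Or.inr ⟨a.symm.trans h4, b.symm⟩
      · rw [if_neg h6]
        rw [h4] at h7
        split_ifs <;> omega
    · simp only [dif_neg h]
      obtain ⟨h3, h4⟩ := hact.resolve_left h
      obtain ⟨h5, h6⟩ := hnb v h4
      refine ⟨h5, ?_⟩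
      rw [if_pos h3, if_neg (h3 ▸ h6)]
      omega
  · intro e
    obtain ⟨h5, h6, h7, h8⟩ := hH (χ e) e rfl
    have h : ∃ e', χ e' = χ e ∧ tl (χ e) e' = tl (χ e) e := ⟨e, rfl, rfl⟩
    refine ⟨tl (χ e) e, hd (χ e) e, ?_, χ e, φ (hd (χ e) e), Or.inl h, ?_, Or.inr ⟨rfl, e, ?_⟩, ?_⟩
    · rcases h5 with ⟨a, b⟩ | ⟨a, b⟩
      · exact Or.inl ⟨a.symm, b.symm⟩
      · exact Or.inr ⟨a.symm, b.symm⟩
    · simp only [dif_pos h]
      rw [h8 _ h.choose_spec.1 h.choose_spec.2]
    · rcases h5 with ⟨a, b⟩ | ⟨a, b⟩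
      · exact Or.inr b.symm
      · exact Or.inl b.symm
    · simp

end Pool.Agent.Lib.MP_ffa969_co
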