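import Pool.Agent.Lib.MP_ffa969_co.Plane

set_option autoImplicit false
set_option linter.unusedSectionVars false

namespace Pool.Agent.Lib.MP_ffa969_co

open Complex
open scoped Real Topology

variable {V E : Type} [Fintype V] [DecidableEq V] [Fintype E] [DecidableEq E]
variable {s t : E → V} {pos : V → ℂ} {ρ : ℝ} {mid : E → unitInterval → ℂ}

lemma jump_seg {A u : ℂ} {ρ θ δ : ℝ} (hρ : 0 < ρ) (hu : ‖u‖ = 1) (h0 : 0 < δ) (h1 : δ < 1 / 2) :
    nu (seg A (A + ρ * (u * exp (θ * I)))) (A + (1 / 2 : ℝ) * (ρ * (u * exp ((θ + δ : ℝ) * I)))) =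
    nu (seg A (A + ρ * (u * exp (θ * I)))) (A + (1 / 2 : ℝ) * (ρ * (u * exp ((θ - δ : ℝ) * I)))) +
      (kk (A + (1 / 2 : ℝ) * (ρ * (u * exp ((θ - δ : ℝ) * I))))
        (A + (1 / 2 : ℝ) * (ρ * (u * exp ((θ + δ : ℝ) * I)))) A : F) +
      (kk (A + (1 / 2 : ℝ) * (ρ * (u * exp ((θ - δ : ℝ) * I))))
        (A + (1 / 2 : ℝ) * (ρ * (u * exp ((θ + δ : ℝ) * I)))) (A + ρ * (u * exp (θ * I))) : F)
      + 1 := by
  have hu0 : u ≠ 0 := by rintro rfl; simp at hu
  have hρ0 : (ρ : ℂ) ≠ 0 := by exact_mod_cast hρ.ne'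
  have key : ∀ φ : ℝ, (A + ρ * (u * exp (θ * I)) - (A + (1 / 2 : ℝ) * (ρ * (u * exp (φ * I))))) /
      (A - (A + (1 / 2 : ℝ) * (ρ * (u * exp (φ * I))))) = 1 - 2 * exp ((θ - φ : ℝ) * I) := by
    intro φ
    have h2 : exp (θ * I) = exp ((θ - φ : ℝ) * I) * exp (φ * I) := by
      rw [← exp_add]; congr 1; push_cast; ring
    have := exp_ne_zero (φ * I)
    rw [h2, div_eq_iff]
    · push_cast; ring
    · simp [hu0, hρ0, this]
  have hcos : 1 / 2 < Real.cos δ := by
    have := Real.one_sub_sq_div_two_le_cos (x := δ)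
    nlinarith
  have hsin : 0 < Real.sin δ :=
    Real.sin_pos_of_pos_of_lt_pi h0 (by linarith [Real.two_le_pi])
  have hnear : ‖(A + (1 / 2 : ℝ) * (ρ * (u * exp ((θ + δ : ℝ) * I)))) -
      (A + (1 / 2 : ℝ) * (ρ * (u * exp ((θ - δ : ℝ) * I))))‖ < ρ / 2 := by
    have : (A + (1 / 2 : ℝ) * (ρ * (u * exp ((θ + δ : ℝ) * I)))) -
        (A + (1 / 2 : ℝ) * (ρ * (u * exp ((θ - δ : ℝ) * I)))) =
        ((ρ / 2 : ℝ) : ℂ) * (u * (exp ((θ + δ : ℝ) * I) - exp ((θ - δ : ℝ) * I))) := by
      push_cast; ring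
    rw [this, norm_mul, norm_mul, hu, one_mul, norm_real, Real.norm_of_nonneg (by linarith)]
    have h2 := norm_exp_sub (θ + δ) (θ - δ)
    rw [abs_of_pos (by linarith)] at h2
    nlinarith
  have hn : ∀ φ : ℝ, ‖((1 / 2 : ℝ) : ℂ) * (ρ * (u * exp (φ * I)))‖ = ρ / 2 := by
    intro φ
    rw [norm_mul, norm_mul, norm_mul, hu, norm_exp_ofReal_mul_I, norm_real, norm_real,
      Real.norm_of_nonneg hρ.le, Real.norm_of_nonneg (by norm_num)]
    ring
  apply nu_jump
  · rw [key]; simp only [sub_sub_cancel, sub_re, one_re, re_ofNat, mul_re, im_ofNat,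
      exp_ofReal_mul_I_re]; linarith
  · rw [key]; simp only [sub_sub_cancel, sub_im, one_im, re_ofNat, mul_im, im_ofNat,
      exp_ofReal_mul_I_im]; linarith
  · rw [key]; simp only [sub_add_cancel_left, sub_re, one_re, re_ofNat, mul_re, im_ofNat,
      exp_ofReal_mul_I_re, Real.cos_neg]; linarith
  · rw [key]; simp only [sub_add_cancel_left, sub_im, one_im, re_ofNat, mul_im, im_ofNat,
      exp_ofReal_mul_I_im, Real.sin_neg]; linarith
  · apply re_pos_of_near
    refine hnear.trans_le ?_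
    rw [add_sub_add_left_eq_sub]
    have h2 := norm_sub_norm_le ((ρ : ℂ) * (u * exp (θ * I)))
      (((1 / 2 : ℝ) : ℂ) * (ρ * (u * exp ((θ - δ : ℝ) * I))))
    rw [hn, norm_mul, norm_mul, hu, norm_exp_ofReal_mul_I, norm_real,
      Real.norm_of_nonneg hρ.le] at h2
    linarith
  · apply re_pos_of_near
    refine hnear.trans_le ?_
    rw [sub_add_cancel_left, norm_neg, hn]

theorem Normal.whit (h : Normal s t pos ρ mid) (hne : ∀ e, s e ≠ t e) : Whit s t := by
  classical
  have hρ := h.pos_rho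
  have hρ0 : (ρ : ℂ) ≠ 0 := by exact_mod_cast hρ.ne'
  obtain ⟨u, hu, hu'⟩ := exists_rotation (fun d => tip mid d - pos (base s t d))
    (fun d => norm_pos_iff.mp (by rw [h.tip_norm]; exact hρ))
  have hu0 : u ≠ 0 := by rintro rfl; simp at hu
  set θ : E × Bool → ℝ := fun d => arg ((tip mid d - pos (base s t d)) / u) with hθ
  have hθ1 : ∀ d, θ d < π := hu'
  have hθ0 : ∀ d, -π < θ d := fun d => neg_pi_lt_arg _
  have htip : ∀ d, tip mid d = pos (base s t d) + ρ * (u * exp (θ d * I)) := by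
    intro d
    have h1 := norm_mul_exp_arg_mul_I ((tip mid d - pos (base s t d)) / u)
    rw [norm_div, h.tip_norm, hu, div_one, eq_div_iff hu0] at h1
    linear_combination -h1
  let P : V → ℝ → ℂ := fun v x => pos v + (1 / 2 : ℝ) * (ρ * (u * exp (x * I)))
  have hPc : ∀ v, Continuous (P v) := fun v => by fun_prop
  have hθinj : ∀ d d', base s t d = base s t d' → θ d = θ d' → d = d' := fun d d' h1 h2 =>
    h.tip_inj hne h1 (by rw [htip, htip, h1, h2])
  have havoid : ∀ v x, -π ≤ x → x ≤ π → ∀ κ a, piece s t pos mid κ a = P v x →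
      ∃ d, κ = Sum.inl d ∧ base s t d = v ∧ θ d = x := by
    intro v x hx0 hx1 κ a hz
    rcases h.disc_piece (by norm_num) (by norm_num) (u := ρ * (u * exp (x * I))) (by
      rw [norm_mul, norm_mul, hu, norm_exp_ofReal_mul_I, norm_real, Real.norm_of_nonneg hρ.le]
      ring) hz with ⟨d, rfl, h1, h2⟩ | ⟨e, -, h1⟩
    · refine ⟨d, rfl, h1, ?_⟩
      rw [htip, h1] at h2
      have h3 := mul_left_cancel₀ hu0 (mul_left_cancel₀ hρ0 (add_left_cancel h2))
      obtain ⟨n, hn⟩ := exp_eq_exp_iff_exists_int.mp h3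
      have h4 := congrArg Complex.im hn
      simp at h4
      have h5 := hθ0 d
      have h6 := hθ1 d
      have b1 : (-1 : ℝ) < n := by
        by_contra h
        nlinarith [Real.pi_pos, not_lt.mp h]
      have b2 : (n : ℝ) < 1 := by
        by_contra h
        nlinarith [Real.pi_pos, not_lt.mp h]
      have b3 : (-1 : ℤ) < n := by exact_mod_cast b1
      have b4 : n < 1 := by exact_mod_cast b2
      have : n = 0 := by omega
      rw [h4, this]; simp
    · norm_num at h1
  have harc : ∀ (C : E → F), ∑ e, C e • bv s t e = 0 → ∀ v x y, -π ≤ x → x ≤ y → y ≤ π →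
      (∀ d, base s t d = v → x ≤ θ d → θ d ≤ y → C d.1 = 0) → ∀ z ∈ Set.Icc x y,
      Ind s t pos mid C (P v x) = Ind s t pos mid C (P v z) := by
    intro C hC v x y hx hxy hy hd z hz
    refine h.Ind_const hC (S := P v '' Set.Icc x y)
      (isPreconnected_Icc.image _ (hPc v).continuousOn) ?_ ⟨x, ⟨le_rfl, hxy⟩, rfl⟩ ⟨z, hz, rfl⟩
    rintro _ ⟨w, hw, rfl⟩ κ hκ a hz
    obtain ⟨d, rfl, h1, h2⟩ := havoid v w (hx.trans hw.1) (hw.2.trans hy) κ a hz
    exact hκ (hd d h1 (h2 ▸ hw.1) (h2 ▸ hw.2))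
  have hr : ∀ d, ∃ r > 0, ∀ κ, κ ≠ Sum.inl d → ∀ a,
      r ≤ ‖piece s t pos mid κ a - P (base s t d) (θ d)‖ := by
    intro d
    apply h.exists_ball (fun κ => κ ≠ Sum.inl d)
    intro κ hκ a hz
    obtain ⟨d', rfl, h1, h2⟩ := havoid _ _ (hθ0 d).le (hθ1 d).le κ a hz
    exact hκ (by rw [hθinj _ _ h1 h2])
  choose r hr0 hr using hr
  have e1 : ∀ᶠ δ in 𝓝[>] (0 : ℝ), ∀ d, -π ≤ θ d - δ ∧ θ d + δ ≤ π ∧ 3 * ρ * δ < r d := by
    refine Filter.eventually_all.mpr fun d => ?_
    filter_upwards [Ioo_mem_nhdsGT (sub_pos.mpr (hθ0 d)), Ioo_mem_nhdsGT (sub_pos.mpr (hθ1 d)),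
      Ioo_mem_nhdsGT (div_pos (hr0 d) (by linarith : 0 < 3 * ρ))] with δ h1 h2 h3
    refine ⟨by linarith [h1.2], by linarith [h2.2], ?_⟩
    have := (lt_div_iff₀ (by linarith : 0 < 3 * ρ)).mp h3.2
    linarith
  have e2 : ∀ᶠ δ in 𝓝[>] (0 : ℝ), ∀ d d', θ d < θ d' → θ d + δ ≤ θ d' - δ := by
    refine Filter.eventually_all.mpr fun d => Filter.eventually_all.mpr fun d' =>
      Filter.eventually_all.mpr fun hd => ?_
    filter_upwards [Ioo_mem_nhdsGT (half_pos (sub_pos.mpr hd))] with δ h1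
    linarith [h1.2]
  obtain ⟨δ, ⟨hδ1, hδ2⟩, hδ0, hδ3⟩ :=
    ((e1.and e2).and (Ioo_mem_nhdsGT (by norm_num : (0 : ℝ) < 1 / 2))).exists
  have hPd : ∀ v x y, ‖P v x - P v y‖ ≤ ρ / 2 * |x - y| := by
    intro v x y
    have : P v x - P v y = ((ρ / 2 : ℝ) : ℂ) * (u * (exp (x * I) - exp (y * I))) := by
      simp only [P]; push_cast; ring
    rw [this, norm_mul, norm_mul, hu, one_mul, norm_real, Real.norm_of_nonneg (by linarith)]
    exact mul_le_mul_of_nonneg_left (norm_exp_sub x y) (by linarith)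
  have hjump : ∀ (C : E → F), ∑ e, C e • bv s t e = 0 → ∀ d,
      Ind s t pos mid C (P (base s t d) (θ d - δ)) +
        Ind s t pos mid C (P (base s t d) (θ d + δ)) = C d.1 := by
    intro C hC d
    set p := P (base s t d) (θ d - δ) with hp
    set p' := P (base s t d) (θ d + δ) with hp'
    have h1 := sum_ends (pos := pos) (mid := mid) hC (fun Z => (kk p p' Z : F))
    have h2 : ∀ κ, nu (piece s t pos mid κ) p' = nu (piece s t pos mid κ) p +
        ((kk p p' (piece s t pos mid κ 0) : F) + (kk p p' (piece s t pos mid κ 1) : F)) +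
        if κ = Sum.inl d then 1 else 0 := by
      intro κ
      split_ifs with hκ
      · subst hκ
        simp only [piece, seg_zero, seg_one, htip d]
        rw [← add_assoc]
        exact jump_seg hρ hu hδ0 hδ3
      · rw [add_zero, ← add_assoc]
        apply nu_near (h.piece_cont κ)
        intro a
        have h3 := hr d κ hκ a
        have h4 := hPd (base s t d) (θ d + δ) (θ d - δ)
        have h5 := hPd (base s t d) (θ d - δ) (θ d)
        rw [abs_of_pos (by linarith)] at h4
        rw [abs_of_neg (by linarith)] at h5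
        have h6 := norm_sub_le_norm_sub_add_norm_sub (piece s t pos mid κ a) p
          (P (base s t d) (θ d))
        have h7 := (hδ1 d).2.2
        nlinarith
    have h3 : Ind s t pos mid C p' = Ind s t pos mid C p + C d.1 := by
      simp only [Ind, h2, mul_add (C _) _ (ite _ _ _), mul_add (C _) (nu _ _),
        Finset.sum_add_distrib, h1]
      simp [pedge]
    rw [h3, ← add_assoc, F_add_self, zero_add]
  have hzero : ∀ (C : E → F), ∑ e, C e • bv s t e = 0 → ∀ d, C d.1 = 0 →
      Ind s t pos mid C (P (base s t d) (θ d - δ)) = Ind s t pos mid C (mid d.1 0) := by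
    intro C hC d h0
    rw [← h.along hne hC d h0]
    have h1 := harc C hC (base s t d) (θ d - δ) (θ d) (hδ1 d).1 (by linarith) (hθ1 d).le (by
      intro d' h1 h2 h3
      rcases h3.lt_or_eq with h3 | h3
      · linarith [hδ2 _ _ h3]
      · rw [hθinj _ _ h1 h3]; exact h0) (θ d) ⟨by linarith, le_rfl⟩
    rw [h1]
    simp only [P, htip d, add_sub_cancel_left]
  let Z := {C : E → F // ∑ e, C e • bv s t e = 0}
  let lam : V → ℝ → (Z → F) := fun v x C => Ind s t pos mid C.1 (P v x)
  have hadd : ∀ (C C' : E → F) p, Ind s t pos mid (C + C') p =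
      Ind s t pos mid C p + Ind s t pos mid C' p := by
    intro C C' p
    simp [Ind, add_mul, Finset.sum_add_distrib]
  have hpair : ∀ (H : (Z → F) → F) e,
      H (lam (s e) (θ (e, true) - δ)) + H (lam (s e) (θ (e, true) + δ)) =
      H (lam (t e) (θ (e, false) - δ)) + H (lam (t e) (θ (e, false) + δ)) := by
    intro H e
    have j1 : ∀ C : Z, lam (s e) (θ (e, true) - δ) C + lam (s e) (θ (e, true) + δ) C = C.1 e :=
      fun C => hjump C.1 C.2 (e, true)
    have j2 : ∀ C : Z, lam (t e) (θ (e, false) - δ) C + lam (t e) (θ (e, false) + δ) C = C.1 e :=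
      fun C => hjump C.1 C.2 (e, false)
    have j3 : ∀ C : Z, C.1 e = 0 → lam (s e) (θ (e, true) - δ) C = lam (t e) (θ (e, false) - δ) C :=
      fun C h0 => (hzero C.1 C.2 (e, true) h0).trans (hzero C.1 C.2 (e, false) h0).symm
    have aux1 : ∀ a b c d x : F, a + b = x → c + d = x → a = c → b = d := by decide
    by_cases hcase : lam (s e) (θ (e, true) - δ) = lam (t e) (θ (e, false) - δ)
    · have : lam (s e) (θ (e, true) + δ) = lam (t e) (θ (e, false) + δ) :=
        funext fun C => aux1 _ _ _ _ _ (j1 C) (j2 C) (congrFun hcase C)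
      rw [hcase, this]
    · obtain ⟨C0, hC0⟩ := Function.ne_iff.mp hcase
      have aux2 : ∀ x : F, x ≠ 0 → x = 1 := by decide
      have h1 : C0.1 e = 1 := aux2 _ fun h => hC0 (j3 C0 h)
      have h2 : lam (s e) (θ (e, true) - δ) = lam (t e) (θ (e, false) + δ) := by
        ext C
        by_cases h0 : C.1 e = 0
        · rw [j3 C h0]
          exact F_eq_of_add ((j2 C).trans h0)
        · have h3 := j3 ⟨C.1 + C0.1, by
            simp only [Pi.add_apply, add_smul, Finset.sum_add_distrib, C.2, C0.2, add_zero]⟩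
            (by simp only [Pi.add_apply, h1, aux2 _ h0]; decide)
          have h4 := j2 C
          rw [aux2 _ h0] at h4
          simp only [lam, hadd] at h3 h4 hC0 ⊢
          have aux3 : ∀ a a0 c c0 d : F, a + a0 = c + c0 → c + d = 1 → a0 ≠ c0 → a = d := by
            decide
          exact aux3 _ _ _ _ _ h3 h4 hC0
      have h3 : lam (s e) (θ (e, true) + δ) = lam (t e) (θ (e, false) - δ) :=
        funext fun C => aux1 _ _ _ _ _ (j1 C) ((add_comm _ _).trans (j2 C)) (congrFun h2 C)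
      rw [h2, h3, add_comm]
  refine ⟨Z → F, fun e => lam (s e) (θ (e, true) - δ), fun e => lam (s e) (θ (e, true) + δ),
    ?_, ?_⟩
  · intro H
    ext v
    let D := Finset.univ.filter (fun d : E × Bool => base s t d = v)
    have h1 := telescope (fun x => H (lam v x)) δ (-π) hδ0 (D.image θ) π
      (by linarith [Real.pi_pos])
      (by
        intro x hx
        obtain ⟨d, -, rfl⟩ := Finset.mem_image.mp hx
        exact ⟨(hδ1 d).1, (hδ1 d).2.1⟩)
      (by
        intro x hx y hy
        obtain ⟨d, -, rfl⟩ := Finset.mem_image.mp hx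
        obtain ⟨d', -, rfl⟩ := Finset.mem_image.mp hy
        exact hδ2 d d')
      (by
        intro x y hx hxy hy hS
        congr 1
        ext C
        refine harc C.1 C.2 v x y hx hxy hy ?_ y ⟨hxy, le_rfl⟩
        intro d h1 h2 h3
        rcases hS (θ d) (Finset.mem_image_of_mem _ (by simpa [D] using h1)) with h | h <;> linarith)
    have h2 : P v (-π) = P v π := by
      simp only [P]
      push_cast
      rw [neg_mul, exp_neg, exp_pi_mul_I]
      norm_num
    have h3 : lam v (-π) = lam v π := by simp only [lam, h2]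
    rw [h3, F_add_self, Finset.sum_image (by
      intro d hd d' hd' h
      exact hθinj d d' (((Finset.mem_filter.mp hd).2).trans ((Finset.mem_filter.mp hd').2).symm) h),
      Finset.sum_filter, Fintype.sum_prod_type] at h1
    rw [Finset.sum_apply, Pi.zero_apply, ← h1]
    apply Finset.sum_congr rfl
    intro e _
    simp only [Fintype.sum_bool, base, if_true, Bool.false_eq_true, if_false, Pi.smul_apply, bv,
      smul_eq_mul, mul_add, mul_ite, mul_one, mul_zero]
    congr 1
    · split_ifs with h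
      · rw [h]
      · rfl
    · split_ifs with h
      · rw [hpair, h]
      · rfl
  · intro C hC
    exact ⟨fun x => x ⟨C, hC⟩, fun e => (hjump C hC (e, true)).symm⟩

end Pool.Agent.Lib.MP_ffa969_co
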