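import Pool.Agent.Lib.MP_ffa969_co.Local

set_option autoImplicit false
set_option linter.unusedSectionVars false

namespace Pool.Agent.Lib.MP_ffa969_co

open Module Submodule

variable {V E : Type} [Fintype V] [DecidableEq V] [Fintype E] [DecidableEq E]

def Loc (s t : E → V) (φ : V → Fin 3) : Submodule F (Fin 3 → V → F) :=
  Submodule.pi Set.univ (fun c => perp (wv s t φ c))

lemma mem_Loc {s t : E → V} {φ : V → Fin 3} {u : Fin 3 → V → F} :
    u ∈ Loc s t φ ↔ ∀ c e, wv s t φ c e ⬝ᵥ u c = 0 := by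
  simp [Loc, Submodule.mem_pi, mem_perp]

lemma finrank_Loc (s t : E → V) (φ : V → Fin 3) :
    finrank F (Loc s t φ) + rsum s t φ = 3 * Fintype.card V := by
  rw [Loc, finrank_pi_submodule, rsum, ← Finset.sum_add_distrib]
  simp [finrank_perp]

def tau (φ : V → Fin 3) (p r : V) : ((Fin 3 → F) × F × F) →ₗ[F] (Fin 3 → V → F) where
  toFun a := fun c v => (if φ v = c then 0 else a.1 c) + (if c = φ p ∧ v = r then a.2.1 else 0) +
    (if c = φ r ∧ v = p then a.2.2 else 0)
  map_add' x y := by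
    ext c v
    simp only [Pi.add_apply, Prod.fst_add, Prod.snd_add]
    split_ifs <;> ring
  map_smul' a x := by
    ext c v
    simp only [Pi.smul_apply, Prod.smul_fst, Prod.smul_snd, smul_eq_mul, RingHom.id_apply]
    split_ifs <;> ring

lemma tau_apply (φ : V → Fin 3) (p r : V) (a : (Fin 3 → F) × F × F) (c : Fin 3) (v : V) :
    tau φ p r a c v = (if φ v = c then 0 else a.1 c) + (if c = φ p ∧ v = r then a.2.1 else 0) +
    (if c = φ r ∧ v = p then a.2.2 else 0) := rfl

/-- simple graph: an edge is determined by its two ends -/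
def Simple (s t : E → V) : Prop :=
  ∀ e e', ((s e = s e' ∧ t e = t e') ∨ (s e = t e' ∧ t e = s e')) → e = e'

lemma exists_other {s t : E → V} (hne : ∀ e, s e ≠ t e) (hev : ∑ e, bv s t e = 0) (e0 : E) (v : V)
    (hv : s e0 = v ∨ t e0 = v) : ∃ e, e ≠ e0 ∧ (s e = v ∨ t e = v) := by
  have h := two_le_deg hev (mem_verts.mpr ⟨e0, Finset.mem_univ _, hv⟩)
  rw [deg_eq_card hne] at h
  obtain ⟨e, he, hne⟩ := Finset.exists_mem_ne (lt_of_lt_of_le one_lt_two h) e0
  exact ⟨e, hne, (Finset.mem_filter.mp he).2⟩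

lemma third_aux (a b c x y : Fin 3) (hab : a ≠ b) (ha : a ≠ c) (hb : b ≠ c) (hxy : x ≠ y)
    (hx : x ≠ c) (hy : y ≠ c) : (x = a ∧ y = b) ∨ (x = b ∧ y = a) := by
  revert a b c x y; decide

open Classical in
theorem exists_triv (s t : E → V) (φ : V → Fin 3) (hne : ∀ e, s e ≠ t e) (hs : Simple s t)
    (hsurj : ∀ v, ∃ e, s e = v ∨ t e = v) (hev : ∑ e, bv s t e = 0)
    (hconn : ∀ g : V → F, (∀ e, g (s e) = g (t e)) → ∀ v w, g v = g w)
    (hf : Acyc s t (monoE s t φ : Set E)) (e0 : E) :
    ∃ (T : Submodule F (Fin 3 → V → F)) (Λ : (Fin 3 → V → F) →ₗ[F] (Fin 3 → F) × F × F),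
      T ≤ Loc s t φ ∧
      finrank F (Loc s t φ) + 3 + (if Alt s t φ then 1 else 0) ≤ finrank F T + Fintype.card E ∧
      ∀ u ∈ T, u = tau φ (s e0) (t e0) (Λ u) ∧ (¬ Alt s t φ → (Λ u).2 = 0) := by
  obtain ⟨h1, h2⟩ := local_bound s t φ hne hsurj hev hconn hf
  have h3 := finrank_Loc s t φ
  by_cases hA : Alt s t φ
  · obtain ⟨hbi, c0, hc0⟩ := id hA
    have hinj : LinearMap.ker (tau φ (s e0) (t e0)) = ⊥ := by
      rw [LinearMap.ker_eq_bot']
      rintro ⟨α, x, y⟩ h
      have h' : ∀ c v, tau φ (s e0) (t e0) (α, x, y) c v = 0 := fun c v => by rw [h]; rfl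
      have hab := hbi e0
      obtain ⟨w, hw1, hw2⟩ : ∃ w, φ w ≠ φ (s e0) ∧ w ≠ t e0 := by
        obtain ⟨e, he, he' | he'⟩ := exists_other hne hev e0 (s e0) (Or.inl rfl)
        · exact ⟨t e, he' ▸ (hbi e).symm, fun h => he (hs _ _ (Or.inl ⟨he', h⟩))⟩
        · exact ⟨s e, he' ▸ (hbi e), fun h => he (hs _ _ (Or.inr ⟨h, he'⟩))⟩
      obtain ⟨z, hz1, hz2⟩ : ∃ z, φ z ≠ φ (t e0) ∧ z ≠ s e0 := by
        obtain ⟨e, he, he' | he'⟩ := exists_other hne hev e0 (t e0) (Or.inr rfl)
        · exact ⟨t e, he' ▸ (hbi e).symm, fun h => he (hs _ _ (Or.inr ⟨he', h⟩))⟩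
        · exact ⟨s e, he' ▸ (hbi e), fun h => he (hs _ _ (Or.inl ⟨h, he'⟩))⟩
      have ha : α (φ (s e0)) = 0 := by
        simpa [tau_apply, hw1, hw2, hab] using h' (φ (s e0)) w
      have hb : α (φ (t e0)) = 0 := by
        simpa [tau_apply, hz1, hz2, hab.symm] using h' (φ (t e0)) z
      have hx : x = 0 := by
        simpa [tau_apply, hab, hab.symm, ha] using h' (φ (s e0)) (t e0)
      have hy : y = 0 := by
        simpa [tau_apply, hab, hab.symm, hb] using h' (φ (t e0)) (s e0)
      have hα : α = 0 := by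
        ext c
        by_cases hc : φ (s e0) = c
        · rw [← hc, ha]; rfl
        · simpa [tau_apply, hx, hy, hc] using h' c (s e0)
      simp [hα, hx, hy]
    obtain ⟨Λ, hΛ⟩ := LinearMap.exists_leftInverse_of_injective _ hinj
    refine ⟨LinearMap.range (tau φ (s e0) (t e0)), Λ, ?_, ?_, ?_⟩
    · rintro _ ⟨⟨α, x, y⟩, rfl⟩
      rw [mem_Loc]
      intro c e
      rw [wv_dot]
      have hab := hbi e0
      have hxy := hbi e
      have := third_aux _ _ c0 _ _ hab (hc0 _) (hc0 _) hxy (hc0 _) (hc0 _)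
      split_ifs with h4 h5 h6
      · rfl
      · rw [tau_apply, if_pos h4, if_neg, if_neg]
        · simp
        · rintro ⟨h7, h8⟩; exact hab (by rw [← h8, h4, h7])
        · rintro ⟨h7, h8⟩; exact hab (by rw [← h8, h4, h7])
      · rw [tau_apply, if_pos h6, if_neg, if_neg]
        · simp
        · rintro ⟨h7, h8⟩; exact hab (by rw [← h8, h6, h7])
        · rintro ⟨h7, h8⟩; exact hab (by rw [← h8, h6, h7])
      · have h7 : c ≠ φ (s e0) := by
          rintro rfl; rcases this with h | h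
          · exact h4 h.1
          · exact h6 h.2
        have h8 : c ≠ φ (t e0) := by
          rintro rfl; rcases this with h | h
          · exact h6 h.2
          · exact h4 h.1
        simp [tau_apply, h4, h6, h7, h8, F_add_self]
    · rw [LinearMap.finrank_range_of_inj (LinearMap.ker_eq_bot.mp hinj), if_pos hA]
      simp only [Module.finrank_prod, Module.finrank_fintype_fun_eq_card, Fintype.card_fin,
        Module.finrank_self]
      omega
    · rintro _ ⟨a, rfl⟩
      refine ⟨?_, fun h => (h hA).elim⟩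
      have := LinearMap.congr_fun hΛ a
      simp only [LinearMap.coe_comp, Function.comp_apply, LinearMap.id_coe, id_eq] at this
      rw [this]
  · have hinj : LinearMap.ker (tau φ (s e0) (t e0) ∘ₗ LinearMap.inl F _ _) = ⊥ := by
      rw [LinearMap.ker_eq_bot']
      intro α h
      ext c
      obtain ⟨v, hv⟩ : ∃ v, φ v ≠ c := by
        by_contra hn
        push Not at hn
        have := hf (fun _ => 1) (fun e he => (he (by simp [monoE, hn])).elim) (by simpa using hev)
        simpa using congrFun this e0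
      have := congrFun (congrFun h c) v
      simpa [tau_apply, hv] using this
    obtain ⟨Λ, hΛ⟩ := LinearMap.exists_leftInverse_of_injective _ hinj
    refine ⟨LinearMap.range (tau φ (s e0) (t e0) ∘ₗ LinearMap.inl F _ _),
      LinearMap.inl F _ _ ∘ₗ Λ, ?_, ?_, ?_⟩
    · rintro _ ⟨α, rfl⟩
      rw [mem_Loc]
      intro c e
      rw [wv_dot]
      split_ifs with h4 h5 h6 <;> simp [tau_apply, *, F_add_self]
    · rw [LinearMap.finrank_range_of_inj (LinearMap.ker_eq_bot.mp hinj), if_neg hA]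
      simp only [Module.finrank_fintype_fun_eq_card, Fintype.card_fin]
      have := h2 hA
      omega
    · rintro _ ⟨a, rfl⟩
      have := LinearMap.congr_fun hΛ a
      simp only [LinearMap.coe_comp, Function.comp_apply, LinearMap.id_coe, id_eq] at this
      refine ⟨?_, fun _ => rfl⟩
      simp only [LinearMap.coe_comp, Function.comp_apply]
      rw [this]

/-- local intersection term of an edge with ends `p`, `r` -/
def theta (φ : V → Fin 3) (u u' : Fin 3 → V → F) (p r : V) : F :=
  if φ p = φ r then 0 else u (φ p) r * (∑ b, u' b p) + u (φ r) p * (∑ b, u' b r)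

lemma sum_erase_aux (β : Fin 3 → F) (a : Fin 3) :
    (∑ c, if a = c then 0 else β c) = (∑ c, β c) + β a := by
  revert β a; decide

lemma sum_tau (φ : V → Fin 3) (p r : V) (a : (Fin 3 → F) × F × F) (v : V) :
    ∑ c, tau φ p r a c v = (∑ c, a.1 c) + a.1 (φ v) + (if v = r then a.2.1 else 0) +
      (if v = p then a.2.2 else 0) := by
  simp only [tau_apply, Finset.sum_add_distrib, sum_erase_aux]
  congr 1
  · congr 1
    by_cases h : v = r <;> simp [h]
  · by_cases h : v = p <;> simp [h]

theorem face_identity (s t : E → V) (φ : V → Fin 3) (hs : Simple s t)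
    (hev : ∑ e, bv s t e = 0) (e0 : E) (a a' : (Fin 3 → F) × F × F)
    (h : ¬ Alt s t φ → a.2 = 0 ∧ a'.2 = 0) :
    ∑ e, theta φ (tau φ (s e0) (t e0) a) (tau φ (s e0) (t e0) a') (s e) (t e) =
      a.2.1 * a'.2.2 + a.2.2 * a'.2.1 := by
  obtain ⟨α, x, y⟩ := a
  obtain ⟨β, x', y'⟩ := a'
  have key : ∀ κ : V → F, ∑ e, (κ (s e) + κ (t e)) = 0 := by
    intro κ
    simp only [← bv_dot]
    rw [← sum_dotProduct, hev, zero_dotProduct]
  by_cases hA : Alt s t φ
  · obtain ⟨hbi, c0, hc0⟩ := hA
    have hab := hbi e0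
    let B := ∑ c, β c
    let κ : V → F := fun v => α (φ v) * (B + β (φ v)) +
      (if v = s e0 then α (φ (s e0)) * y' + y * (B + β (φ (t e0))) else 0) +
      (if v = t e0 then x * (B + β (φ (s e0))) + α (φ (t e0)) * x' else 0)
    have : ∀ e, theta φ (tau φ (s e0) (t e0) (α, x, y)) (tau φ (s e0) (t e0) (β, x', y'))
        (s e) (t e) = (κ (s e) + κ (t e)) + if e = e0 then x * y' + y * x' else 0 := by
      intro e
      have hxy := hbi e
      rw [theta, if_neg hxy, sum_tau, sum_tau, tau_apply, tau_apply, if_neg hxy.symm, if_neg hxy]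
      rcases third_aux _ _ c0 _ _ hab (hc0 _) (hc0 _) hxy (hc0 _) (hc0 _) with ⟨h1, h2⟩ | ⟨h1, h2⟩
      · have h3 : s e ≠ t e0 := by rintro h; exact hab (by rw [← h, h1])
        have h4 : t e ≠ s e0 := by rintro h; exact hab (by rw [← h, h2])
        have h5 : e = e0 ↔ s e = s e0 ∧ t e = t e0 :=
          ⟨by rintro rfl; exact ⟨rfl, rfl⟩, fun h => hs _ _ (Or.inl h)⟩
        simp only [κ, h1, h2, h3, h4, h5, hab, hab.symm, true_and, false_and, if_false, B]
        by_cases h6 : s e = s e0 <;> by_cases h7 : t e = t e0 <;> simp [h6, h7] <;> ring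
      · have h3 : s e ≠ s e0 := by rintro h; exact hab (by rw [← h, h1])
        have h4 : t e ≠ t e0 := by rintro h; exact hab (by rw [← h, h2])
        have h5 : e ≠ e0 := by rintro rfl; exact h3 rfl
        have h8 : ¬ (s e = t e0 ∧ t e = s e0) := fun h => h5 (hs _ _ (Or.inr h))
        simp only [κ, h1, h2, h3, h4, h5, hab, hab.symm, true_and, false_and, if_false, B]
        by_cases h6 : s e = t e0 <;> by_cases h7 : t e = s e0
        · exact (h8 ⟨h6, h7⟩).elim
        all_goals simp [h6, h7]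
        all_goals ring
    simp only [this, Finset.sum_add_distrib (f := fun e => κ (s e) + κ (t e)), key]
    simp
  · obtain ⟨h1, h2⟩ := h hA
    simp only [Prod.mk_eq_zero] at h1 h2
    obtain ⟨rfl, rfl⟩ := h1
    obtain ⟨rfl, rfl⟩ := h2
    let κ : V → F := fun v => α (φ v) * ((∑ c, β c) + β (φ v))
    have : ∀ e, theta φ (tau φ (s e0) (t e0) (α, 0, 0)) (tau φ (s e0) (t e0) (β, 0, 0))
        (s e) (t e) = κ (s e) + κ (t e) := by
      intro e
      by_cases hxy : φ (s e) = φ (t e)
      · simp [theta, κ, hxy, F_add_self]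
      · rw [theta, if_neg hxy, sum_tau, sum_tau, tau_apply, tau_apply, if_neg (Ne.symm hxy),
          if_neg hxy]
        simp [κ]
    simp only [this, key]
    simp

end Pool.Agent.Lib.MP_ffa969_co
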