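import Pool.Agent.Lib.MP_ffa969_co.Defs

set_option autoImplicit false
set_option linter.unusedSectionVars false

namespace Pool.Agent.Lib.MP_ffa969_co

variable {V : Type} [DecidableEq V] {G : SimpleGraph V}

lemma edgePt_apply (u v : V) (a : ℝ) (w : V) :
    edgePt u v a w = (if w = u then 1 - a else 0) + (if w = v then a else 0) := by
  simp [edgePt, Pi.single_apply]

lemma edgePt_symm (u v : V) (a : ℝ) : edgePt u v a = edgePt v u (1 - a) := by
  simp [edgePt, add_comm]

lemma edgePt_zero (u v : V) : edgePt u v 0 = Pi.single u 1 := by simp [edgePt]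

lemma edgePt_one (u v : V) : edgePt u v 1 = Pi.single v 1 := by simp [edgePt]

def vPt (G : SimpleGraph V) (v : V) : Pt G := ⟨Pi.single v 1, Or.inl ⟨v, rfl⟩⟩

def ePt {u v : V} (h : G.Adj u v) {a : ℝ} (h0 : 0 < a) (h1 : a < 1) : Pt G :=
  ⟨edgePt u v a, Or.inr ⟨u, v, a, h, h0, h1, rfl⟩⟩

lemma route_lip (f : (V → ℝ) → ℝ)
    (hf : ∀ u v a b, G.Adj u v → a ∈ Set.Icc (0 : ℝ) 1 → b ∈ Set.Icc (0 : ℝ) 1 →
      f (edgePt u v b) - f (edgePt u v a) ≤ |a - b|) {p q : Pt G} {ℓ : ℝ} (h : Route G p q ℓ) :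
    f q.1 - f p.1 ≤ ℓ := by
  induction h with
  | refl => simp
  | step u v a b _ hadj ha hb hq hr ih =>
    have := hf u v a b hadj ha hb
    rw [← hq, ← hr] at this
    linarith

lemma ball_lip (f : (V → ℝ) → ℝ)
    (hf : ∀ u v a b, G.Adj u v → a ∈ Set.Icc (0 : ℝ) 1 → b ∈ Set.Icc (0 : ℝ) 1 →
      f (edgePt u v b) - f (edgePt u v a) ≤ |a - b|) {p q : Pt G} {r : ℝ} (hr : 0 ≤ r)
    (h : q ∈ gball G p r) : f q.1 - f p.1 ≤ r := by
  have h1 : ENNReal.ofReal (f q.1 - f p.1) ≤ gdist G p q :=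
    le_iInf₂ fun ℓ hℓ => ENNReal.ofReal_le_ofReal (route_lip f hf hℓ)
  exact (ENNReal.ofReal_le_ofReal_iff hr).mp (h1.trans h)

lemma mem_ball_of_route {p q : Pt G} {ℓ r : ℝ} (h : Route G p q ℓ) (hr : ℓ ≤ r) :
    q ∈ gball G p r := by
  have : gdist G p q ≤ ENNReal.ofReal ℓ := iInf₂_le ℓ h
  exact this.trans (ENNReal.ofReal_le_ofReal hr)

lemma ball_vertex {v : V} {q : Pt G} (h : q ∈ gball G (vPt G v) (1 / 2)) : 1 / 2 ≤ q.1 v := by
  have := ball_lip (fun x => - x v) (by
    intro x y a b hadj _ _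
    have := hadj.ne
    simp only [edgePt_apply]
    have h1 := le_abs_self (a - b)
    have h2 := neg_abs_le (a - b)
    split_ifs with h3 h4 h4
    · exact (this (h3.symm.trans h4)).elim
    all_goals linarith [abs_nonneg (a - b)]) (by norm_num) h
  simp only [vPt, Pi.single_eq_same] at this
  linarith

lemma ball_edge {u v : V} (huv : G.Adj u v) {τ : ℝ} (h0 : 0 < τ) (h1 : τ < 1 / 2) {q : Pt G}
    (h : q ∈ gball G (ePt huv h0 (by linarith)) (1 / 2)) :
    1 / 2 + τ ≤ q.1 u + 2 * min (q.1 v) τ := by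
  have hne := huv.ne
  have := ball_lip (fun x => min (1 - τ) (τ + 1 - x u - 2 * min (x v) τ)) (by
    intro x y a b hadj ha hb
    have := hadj.ne
    obtain ⟨ha0, ha1⟩ := ha
    obtain ⟨hb0, hb1⟩ := hb
    simp only [edgePt_apply]
    have h1 := le_abs_self (a - b)
    have h2 := neg_abs_le (a - b)
    have h3 := abs_nonneg (a - b)
    generalize |a - b| = d at h1 h2 h3
    have e1 : ¬ (u = x ∧ u = y) := fun h => this (h.1.symm.trans h.2)
    have e2 : ¬ (v = x ∧ v = y) := fun h => this (h.1.symm.trans h.2)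
    have e3 : ¬ (u = x ∧ v = x) := fun h => hne (h.1.trans h.2.symm)
    have e4 : ¬ (u = y ∧ v = y) := fun h => hne (h.1.trans h.2.symm)
    by_cases hux : u = x <;> by_cases huy : u = y <;> by_cases hvx : v = x <;>
      by_cases hvy : v = y
    all_goals first
      | exact (e1 ⟨hux, huy⟩).elim
      | exact (e2 ⟨hvx, hvy⟩).elim
      | exact (e3 ⟨hux, hvx⟩).elim
      | exact (e4 ⟨huy, hvy⟩).elim
      | (simp only [eq_true hux, eq_true hvy, if_true, huy, hvx, if_false, min_def]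
         split_ifs <;> linarith)
      | (simp only [eq_true huy, eq_true hvx, if_true, hux, hvy, if_false, min_def]
         split_ifs <;> linarith)
      | (simp only [hux, hvx, huy, hvy, if_false, min_def]
         split_ifs <;> linarith)) (by norm_num) h
  simp only [ePt, edgePt_apply, if_true, if_neg hne, if_neg hne.symm, zero_add, add_zero,
    min_self] at this
  have h3 : min (1 - τ) (τ + 1 - (1 - τ) - 2 * τ) = 0 := by
    rw [min_eq_right (by linarith)]; ring
  rw [h3] at this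
  rcases le_total (1 - τ) (τ + 1 - q.1 u - 2 * min (q.1 v) τ) with h2 | h2
  · rw [min_eq_left h2] at this
    linarith
  · rw [min_eq_right h2] at this
    linarith

lemma two_pos (q : Pt G) {u u' : V} (hne : u ≠ u') (h : 0 < q.1 u) (h' : 0 < q.1 u') :
    G.Adj u u' ∧ q.1 u + q.1 u' = 1 ∧ ∀ w, w ≠ u → w ≠ u' → q.1 w = 0 := by
  obtain ⟨q, ⟨v, rfl⟩ | ⟨x, y, a, hadj, h0, h1, rfl⟩⟩ := q
  · exfalso
    simp only [Pi.single_apply] at h h'
    split_ifs at h h' with h2 h3
    · exact hne (h2.trans h3.symm)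
    all_goals linarith
  · have := hadj.ne
    simp only [edgePt_apply] at h h' ⊢
    have hu : u = x ∨ u = y := by
      by_contra hn; push Not at hn; simp [hn.1, hn.2] at h
    have hu' : u' = x ∨ u' = y := by
      by_contra hn; push Not at hn; simp [hn.1, hn.2] at h'
    rcases hu with rfl | rfl <;> rcases hu' with rfl | rfl
    · exact (hne rfl).elim
    · refine ⟨hadj, by simp [this, this.symm], fun w h1 h2 => by simp [h1, h2]⟩
    · refine ⟨hadj.symm, by simp [this, this.symm], fun w h1 h2 => by simp [h1, h2]⟩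
    · exact (hne rfl).elim

theorem colourable_of_structure {c : ℕ} (c0 : Fin c) (act : Fin c → V → Prop)
    (out : Fin c → V → V) (H : Fin c → V → ℕ)
    (h1 : ∀ k v, act k v → G.Adj v (out k v) ∧ H k v < H k (out k v))
    (h2 : ∀ x y, G.Adj x y → ∃ u v, ((x = u ∧ y = v) ∨ (y = u ∧ x = v)) ∧
      ∃ k k', act k u ∧ out k u = v ∧ act k' v ∧ H k' v ≤ H k u) :
    Colourable G (1 / 2) c := by
  classical
  let g : ℕ → ℝ := fun n => 1 / 2 - 1 / (2 * ((n : ℝ) + 2))
  have g0 : ∀ n, 0 < g n := by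
    intro n
    have : (1 : ℝ) / (2 * ((n : ℝ) + 2)) < 1 / 2 :=
      one_div_lt_one_div_of_lt (by norm_num) (by linarith [(Nat.cast_nonneg n : (0 : ℝ) ≤ n)])
    simp only [g]; linarith
  have g1 : ∀ n, g n < 1 / 2 := by
    intro n
    have : (0 : ℝ) < 1 / (2 * ((n : ℝ) + 2)) := by positivity
    simp only [g]; linarith
  have gm : StrictMono g := by
    intro m n hmn
    have : (1 : ℝ) / (2 * ((n : ℝ) + 2)) < 1 / (2 * ((m : ℝ) + 2)) :=
      one_div_lt_one_div_of_lt (by positivity) (by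
        have : (m : ℝ) < n := by exact_mod_cast hmn
        linarith)
    simp only [g]; linarith
  let ctr : Fin c → V → Pt G := fun k v =>
    if h : act k v then ePt (h1 k v h).1 (g0 (H k v)) (by linarith [g1 (H k v)]) else vPt G v
  let D : Fin c → V → Prop := fun k v => act k v ∨ (k = c0 ∧ ∀ w, ¬ G.Adj v w)
  have hA : ∀ k v q, act k v → q ∈ gball G (ctr k v) (1 / 2) →
      1 / 2 + g (H k v) ≤ q.1 v + 2 * min (q.1 (out k v)) (g (H k v)) := by
    intro k v q h hq
    simp only [ctr, dif_pos h] at hq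
    exact ball_edge _ _ (g1 _) hq
  have hpos : ∀ k v q, q ∈ gball G (ctr k v) (1 / 2) → 0 < q.1 v := by
    intro k v q hq
    by_cases h : act k v
    · have := hA k v q h hq
      have h3 := min_le_right (q.1 (out k v)) (g (H k v))
      have := g1 (H k v)
      linarith
    · simp only [ctr, dif_neg h] at hq
      have := ball_vertex hq
      linarith
  have hdisj : ∀ k u u' q, D k u → D k u' → u ≠ u' → q ∈ gball G (ctr k u) (1 / 2) →
      q ∈ gball G (ctr k u') (1 / 2) → False := by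
    intro k u u' q hu hu' hne hq hq'
    obtain ⟨hadj, hsum, hz⟩ := two_pos q hne (hpos _ _ _ hq) (hpos _ _ _ hq')
    have hu : act k u := hu.resolve_right (fun h => h.2 _ hadj)
    have hu' : act k u' := hu'.resolve_right (fun h => h.2 _ hadj.symm)
    have h3 := hA _ _ _ hu hq
    have h4 := hA _ _ _ hu' hq'
    have h5 := min_le_right (q.1 (out k u)) (g (H k u))
    have h6 := min_le_right (q.1 (out k u')) (g (H k u'))
    have h7 := gm (h1 k u hu).2
    have h8 := gm (h1 k u' hu').2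
    have h9 := g0 (H k u)
    have h10 := g0 (H k u')
    by_cases e1 : out k u = u' <;> by_cases e2 : out k u' = u
    · rw [e1] at h7; rw [e2] at h8; linarith
    · rw [hz _ e2 (h1 k u' hu').1.ne', min_eq_left h10.le] at h4
      rw [e1] at h7
      linarith
    · rw [hz _ (h1 k u hu).1.ne' e1, min_eq_left h9.le] at h3
      rw [e2] at h8
      linarith
    · rw [hz _ e2 (h1 k u' hu').1.ne', min_eq_left h10.le] at h4
      rw [hz _ (h1 k u hu).1.ne' e1, min_eq_left h9.le] at h3
      linarith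
  let 𝓑 : Set (Set (Pt G)) := {B | ∃ k v, D k v ∧ B = gball G (ctr k v) (1 / 2)}
  have hcov : ∀ x y (q : Pt G) a, G.Adj x y → a ∈ Set.Icc (0 : ℝ) 1 → q.1 = edgePt x y a →
      q ∈ ⋃₀ 𝓑 := by
    have key : ∀ u v k k' (q : Pt G) a, act k u → out k u = v → act k' v → H k' v ≤ H k u →
        a ∈ Set.Icc (0 : ℝ) 1 → q.1 = edgePt u v a → q ∈ ⋃₀ 𝓑 := by
      rintro u v k k' q a hu rfl hv hH ha hq
      have h3 := gm.monotone hH
      have h4 := g0 (H k u)
      have h5 := g1 (H k u)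
      have h6 := g0 (H k' (out k u))
      by_cases hc : a ≤ g (H k u) + 1 / 2
      · refine ⟨_, ⟨k, u, Or.inl hu, rfl⟩, ?_⟩
        refine mem_ball_of_route (Route.step u (out k u) (g (H k u)) a (Route.refl _)
          (h1 k u hu).1 ⟨h4.le, by linarith⟩ ha (by simp only [ctr, dif_pos hu]; rfl) hq) ?_
        rw [zero_add, abs_le]
        constructor <;> linarith [ha.1]
      · refine ⟨_, ⟨k', out k u, Or.inl hv, rfl⟩, ?_⟩
        have r1 : Route G (ctr k' (out k u)) (vPt G (out k u)) _ :=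
          Route.step (out k u) (out k' (out k u)) (g (H k' (out k u))) 0 (Route.refl _)
            (h1 k' _ hv).1 ⟨h6.le, by linarith⟩ ⟨le_rfl, zero_le_one⟩
            (by simp only [ctr, dif_pos hv]; rfl) (edgePt_zero _ _).symm
        refine mem_ball_of_route (Route.step u (out k u) 1 a r1 (h1 k u hu).1
          ⟨zero_le_one, le_rfl⟩ ha (edgePt_one _ _).symm hq) ?_
        rw [zero_add, sub_zero, abs_of_pos h6, abs_of_nonneg (by linarith [ha.2])]
        linarith
    intro x y q a hadj ha hq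
    obtain ⟨u, v, ⟨rfl, rfl⟩ | ⟨rfl, rfl⟩, k, k', h3, h4, h5, h6⟩ := h2 x y hadj
    · exact key _ _ k k' q a h3 h4 h5 h6 ha hq
    · exact key _ _ k k' q (1 - a) h3 h4 h5 h6 ⟨by linarith [ha.2], by linarith [ha.1]⟩
        (hq.trans (edgePt_symm _ _ _))
  refine ⟨𝓑, fun B => B.2.choose, ?_, ?_, ?_⟩
  · rintro B ⟨k, v, -, rfl⟩
    exact ⟨_, rfl⟩
  · rw [Set.eq_univ_iff_forall]
    intro q
    rcases q.2 with ⟨v, hv⟩ | ⟨x, y, a, hadj, h0, h1, hq⟩
    · by_cases h : ∃ w, G.Adj v w
      · obtain ⟨w, hw⟩ := h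
        exact hcov v w q 0 hw ⟨le_rfl, zero_le_one⟩ (hv.trans (edgePt_zero _ _).symm)
      · push Not at h
        refine ⟨_, ⟨c0, v, Or.inr ⟨rfl, h⟩, rfl⟩, ?_⟩
        have h3 : ¬ act c0 v := fun h' => h _ (h1 c0 v h').1
        have h4 : ctr c0 v = q := by
          simp only [ctr, dif_neg h3]
          exact Subtype.ext hv.symm
        rw [h4]
        exact mem_ball_of_route (Route.refl _) (by norm_num)
    · exact hcov x y q a hadj ⟨h0.le, h1.le⟩ hq
  · rintro B B' hne ⟨q, hq, hq'⟩ heq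
    obtain ⟨u, hu, e1⟩ := B.2.choose_spec
    obtain ⟨u', hu', e2⟩ := B'.2.choose_spec
    simp only at heq
    rw [← heq] at hu' e2
    have : u ≠ u' := by
      rintro rfl
      exact hne (Subtype.ext (e1.trans e2.symm))
    exact hdisj _ u u' q hu hu' this (e1 ▸ hq) (e2 ▸ hq')

end Pool.Agent.Lib.MP_ffa969_co
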