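import Pool.Agent.Lib.MP_ffa969_co.Face

set_option autoImplicit false
set_option linter.unusedSectionVars false

namespace Pool.Agent.Lib.MP_ffa969_co

open Module Submodule

variable {V E : Type} [Fintype V] [DecidableEq V] [Fintype E] [DecidableEq E]

section Sub

variable (p : E → Prop) [DecidablePred p]

/-- end points of the subgraph on the edges satisfying `p` -/
def SV (s t : E → V) (p : E → Prop) : Type := {v // ∃ e, p e ∧ (s e = v ∨ t e = v)}

instance (s t : E → V) : DecidableEq (SV s t p) := by unfold SV; infer_instance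
instance (s t : E → V) : Fintype (SV s t p) := by unfold SV; infer_instance

def sS (s t : E → V) (e : {e // p e}) : SV s t p := ⟨s e.1, e.1, e.2, Or.inl rfl⟩
def tS (s t : E → V) (e : {e // p e}) : SV s t p := ⟨t e.1, e.1, e.2, Or.inr rfl⟩

def ext0 (C : {e // p e} → F) (e : E) : F := if h : p e then C ⟨e, h⟩ else 0

lemma bv_sub (s t : E → V) (e : {e // p e}) (v : SV s t p) :
    bv (sS p s t) (tS p s t) e v = bv s t e.1 v.1 := by
  simp only [bv, sS, tS]
  congr 1
  · exact if_congr Subtype.ext_iff rfl rfl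
  · exact if_congr Subtype.ext_iff rfl rfl

lemma wv_sub (s t : E → V) (φ : V → Fin 3) (c : Fin 3) (e : {e // p e}) (v : SV s t p) :
    wv (sS p s t) (tS p s t) (fun v => φ v.1) c e v = wv s t φ c e.1 v.1 := by
  simp only [wv, bv_sub]
  have h1 : (sS p s t e = v) ↔ s e.1 = v.1 := Subtype.ext_iff
  have h2 : (tS p s t e = v) ↔ t e.1 = v.1 := Subtype.ext_iff
  simp only [h1, h2]
  rfl

lemma sum_ext0 {W : Type} [AddCommGroup W] [Module F W] (C : {e // p e} → F) (w : E → W) :
    ∑ e, ext0 p C e • w e = ∑ e : {e // p e}, C e • w e.1 := by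
  rw [← Finset.sum_subset (Finset.subset_univ (Finset.univ.filter p))]
  · rw [Finset.sum_subtype (Finset.univ.filter p) (p := p) (by simp)]
    apply Finset.sum_congr rfl
    intro e _
    simp [ext0, e.2]
  · intro e _ he
    have : ¬ p e := by simpa using he
    simp [ext0, this]

lemma cycle_sub (s t : E → V) (C : {e // p e} → F) :
    ∑ e, C e • bv (sS p s t) (tS p s t) e = 0 ↔ ∑ e, ext0 p C e • bv s t e = 0 := by
  rw [sum_ext0]
  constructor
  · intro h
    ext v
    by_cases hv : ∃ e, p e ∧ (s e = v ∨ t e = v)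
    · have := congrFun h ⟨v, hv⟩
      simp only [Finset.sum_apply, Pi.smul_apply, bv_sub] at this ⊢
      exact this
    · simp only [Finset.sum_apply, Pi.smul_apply, Pi.zero_apply]
      apply Finset.sum_eq_zero
      intro e _
      rw [bv_eq_zero (fun h => hv ⟨e.1, e.2, Or.inl h⟩) (fun h => hv ⟨e.1, e.2, Or.inr h⟩)]
      simp
  · intro h
    ext v
    have := congrFun h v.1
    simpa [Finset.sum_apply, bv_sub] using this

lemma hne_sub {s t : E → V} (h : ∀ e, s e ≠ t e) (e : {e // p e}) : sS p s t e ≠ tS p s t e :=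
  fun h' => h e.1 (congrArg Subtype.val h')

lemma simple_sub {s t : E → V} (h : Simple s t) : Simple (sS p s t) (tS p s t) := by
  intro e e' he
  apply Subtype.ext
  apply h
  rcases he with ⟨h1, h2⟩ | ⟨h1, h2⟩
  · exact Or.inl ⟨congrArg Subtype.val h1, congrArg Subtype.val h2⟩
  · exact Or.inr ⟨congrArg Subtype.val h1, congrArg Subtype.val h2⟩

lemma surj_sub (s t : E → V) (v : SV s t p) : ∃ e, sS p s t e = v ∨ tS p s t e = v := by
  obtain ⟨v, e, he, h | h⟩ := v
  · exact ⟨⟨e, he⟩, Or.inl (Subtype.ext h)⟩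
  · exact ⟨⟨e, he⟩, Or.inr (Subtype.ext h)⟩

lemma acyc_sub {s t : E → V} {φ : V → Fin 3} (h : Acyc s t (monoE s t φ : Set E)) :
    Acyc (sS p s t) (tS p s t) (monoE (sS p s t) (tS p s t) (fun v => φ v.1) : Set _) := by
  intro C hC h0
  have := h (ext0 p C) (by
    intro e he
    by_cases hp : p e
    · simp only [ext0, hp, dite_true]
      apply hC
      simpa [monoE, sS, tS] using he
    · simp [ext0, hp]) ((cycle_sub p s t C).mp h0)
  ext e
  simpa [ext0, e.2] using congrFun this e.1

end Sub

/-- `l`, `r` describe a combinatorial (Whitney) dual over the field with two elements -/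
structure Faces (s t : E → V) {L : Type} (l r : E → L) : Prop where
  even : ∀ H : L → F, ∑ e, (H (l e) + H (r e)) • bv s t e = 0
  cut : ∀ C : E → F, ∑ e, C e • bv s t e = 0 → ∃ I : L → F, ∀ e, C e = I (l e) + I (r e)

variable {L : Type} [Fintype L] [DecidableEq L]

lemma face_even {s t : E → V} {l r : E → L} (h : Faces s t l r) (hlr : ∀ e, l e ≠ r e) (f : L) :
    ∑ e, bv (sS (fun e => l e = f ∨ r e = f) s t) (tS (fun e => l e = f ∨ r e = f) s t) e = 0 := by
  have := (cycle_sub (fun e => l e = f ∨ r e = f) s t (fun _ => 1)).mpr (by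
    rw [← h.even (fun x => if x = f then 1 else 0)]
    apply Finset.sum_congr rfl
    intro e _
    congr 1
    have := hlr e
    by_cases h1 : l e = f <;> by_cases h2 : r e = f
    · exact (this (h1.trans h2.symm)).elim
    all_goals simp [ext0, h1, h2])
  simpa using this

lemma sum_face_card {l r : E → L} (hlr : ∀ e, l e ≠ r e) :
    ∑ f, Fintype.card {e // l e = f ∨ r e = f} = 2 * Fintype.card E := by
  have := sum_deg l r Finset.univ Finset.univ (Finset.subset_univ _)
  simp only [deg_eq_card hlr, Finset.card_univ] at this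
  rw [← this]
  apply Finset.sum_congr rfl
  intro f _
  rw [Fintype.card_subtype]

lemma euler {s t : E → V} {l r : E → L} (h : Faces s t l r) :
    Fintype.card E + finrank F (perp (bv l r)) ≤
      Fintype.card L + finrank F (span F (Set.range (bv s t))) := by
  have h1 := (Matrix.of (bv l r)).mulVecLin.finrank_range_add_finrank_ker
  have h2 := (Fintype.linearCombination F (bv s t)).finrank_range_add_finrank_ker
  rw [Fintype.range_linearCombination] at h2
  rw [Module.finrank_fintype_fun_eq_card] at h1 h2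
  have h3 : LinearMap.ker (Fintype.linearCombination F (bv s t)) ≤
      LinearMap.range (Matrix.of (bv l r)).mulVecLin := by
    intro C hC
    obtain ⟨I, hI⟩ := h.cut C (by simpa [Fintype.linearCombination_apply] using hC)
    refine ⟨I, ?_⟩
    ext e
    rw [hI e, ← bv_dot]
    rfl
  have h4 := Submodule.finrank_mono h3
  unfold perp
  omega

/-- connectivity of each face -/
def FConn (s t : E → V) (l r : E → L) : Prop :=
  ∀ (f : L) (g : V → F), (∀ e, (l e = f ∨ r e = f) → g (s e) = g (t e)) →
    ∀ e e', (l e = f ∨ r e = f) → (l e' = f ∨ r e' = f) → g (s e) = g (s e')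

lemma face_conn {s t : E → V} {l r : E → L} (h : FConn s t l r) (f : L)
    (g : SV s t (fun e => l e = f ∨ r e = f) → F)
    (hg : ∀ e, g (sS _ s t e) = g (tS _ s t e)) (v w : SV s t (fun e => l e = f ∨ r e = f)) :
    g v = g w := by
  let g' : V → F := fun v => if h : ∃ e, (l e = f ∨ r e = f) ∧ (s e = v ∨ t e = v) then
    g ⟨v, h⟩ else 0
  have h1 : ∀ v : SV s t (fun e => l e = f ∨ r e = f), g' v.1 = g v := fun v => dif_pos v.2
  have h2 : ∀ e, (l e = f ∨ r e = f) → g' (s e) = g' (t e) := fun e he =>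
    (h1 (sS _ s t ⟨e, he⟩)).trans ((hg ⟨e, he⟩).trans (h1 (tS _ s t ⟨e, he⟩)).symm)
  have h3 := h f g' h2
  have h4 : ∀ v : SV s t (fun e => l e = f ∨ r e = f),
      ∃ e, (l e = f ∨ r e = f) ∧ g v = g' (s e) := by
    rintro ⟨v, e, he, rfl | rfl⟩
    · exact ⟨e, he, (h1 _).symm⟩
    · exact ⟨e, he, ((h2 e he).trans (h1 ⟨_, _⟩)).symm⟩
  obtain ⟨e, he, h5⟩ := h4 v
  obtain ⟨e', he', h6⟩ := h4 w
  rw [h5, h6, h3 e e' he he']

open Classical in
theorem core (s t : E → V) (φ : V → Fin 3) (l r : E → L) (hne : ∀ e, s e ≠ t e)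
    (hs : Simple s t) (hsurj : ∀ v, ∃ e, s e = v ∨ t e = v)
    (hF : Faces s t l r) (hlr : ∀ e, l e ≠ r e) (hL : ∀ f, ∃ e, l e = f ∨ r e = f)
    (hc : FConn s t l r) (hf : Acyc s t (monoE s t φ : Set E)) :
    Fintype.card E ≤ rsum s t φ := by
  let p : L → E → Prop := fun f e => l e = f ∨ r e = f
  choose e0 he0 using hL
  let A : L → Prop := fun f => Alt (sS (p f) s t) (tS (p f) s t) (fun v => φ v.1)
  have H := fun f => exists_triv (sS (p f) s t) (tS (p f) s t) (fun v => φ v.1)
    (hne_sub _ hne) (simple_sub _ hs) (surj_sub _ s t) (face_even hF hlr f) (face_conn hc f)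
    (acyc_sub _ hf) ⟨e0 f, he0 f⟩
  choose T Λ hT1 hT2 hT3 using H
  let ρ : ∀ f, Loc s t φ →ₗ[F] (Fin 3 → SV s t (p f) → F) := fun f =>
    { toFun := fun u c v => u.1 c v.1
      map_add' := fun _ _ => rfl
      map_smul' := fun _ _ => rfl }
  have hρ : ∀ f, LinearMap.range (ρ f) ≤ Loc (sS (p f) s t) (tS (p f) s t) (fun v => φ v.1) := by
    rintro f _ ⟨u, rfl⟩
    rw [mem_Loc]
    intro c e
    have := mem_Loc.mp u.2 c e.1
    rw [wv_dot] at this ⊢
    exact this
  have h1 := codim_iInf (fun f => (T f).comap (ρ f)) (fun f => 3 + if A f then 1 else 0)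
    (fun f => Fintype.card {e // p f e}) (by
      intro f
      have h1 := codim_comap (ρ f) _ _ (hρ f) (hT1 f)
      have h2 := hT2 f
      simp only [A]
      omega) Finset.univ
  rw [sum_face_card hlr, Finset.sum_add_distrib] at h1
  simp only [Finset.sum_const, Finset.card_univ, smul_eq_mul, Finset.sum_boole, Nat.cast_id] at h1
  set U1 := ⨅ f ∈ (Finset.univ : Finset L), (T f).comap (ρ f) with hU1
  have hmem : ∀ u : U1, ∀ f, ρ f u.1 ∈ T f := by
    intro u f
    have := u.2
    simp only [hU1, Finset.mem_univ, iInf_pos, Submodule.mem_iInf, mem_comap] at this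
    exact this f
  let κ : U1 →ₗ[F] ({f // A f} → F) × ({f // A f} → F) :=
    { toFun := fun u => (fun f => (Λ f.1 (ρ f.1 u.1)).2.1, fun f => (Λ f.1 (ρ f.1 u.1)).2.2)
      map_add' := by intro x y; ext f <;> simp
      map_smul' := by intro a x; ext f <;> simp }
  have h2 := κ.finrank_range_add_finrank_ker
  have h3 : finrank F (LinearMap.range κ) ≤ Fintype.card {f // A f} := by
    apply finrank_isotropic
    rintro _ ⟨u, rfl⟩ _ ⟨u', rfl⟩
    have h4 : ∀ f, ∑ e : {e // p f e}, theta φ u.1.1 u'.1.1 (s e.1) (t e.1) =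
        (Λ f (ρ f u.1)).2.1 * (Λ f (ρ f u'.1)).2.2 + (Λ f (ρ f u.1)).2.2 * (Λ f (ρ f u'.1)).2.1 := by
      intro f
      have := face_identity (sS (p f) s t) (tS (p f) s t) (fun v => φ v.1) (simple_sub _ hs)
        (face_even hF hlr f) ⟨e0 f, he0 f⟩ (Λ f (ρ f u.1)) (Λ f (ρ f u'.1))
        (fun h => ⟨(hT3 f _ (hmem u f)).2 h, (hT3 f _ (hmem u' f)).2 h⟩)
      rw [← (hT3 f _ (hmem u f)).1, ← (hT3 f _ (hmem u' f)).1] at this
      exact this
    have h5 : ∑ f, ∑ e : {e // p f e}, theta φ u.1.1 u'.1.1 (s e.1) (t e.1) = 0 := by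
      have : ∀ f, ∑ e : {e // p f e}, theta φ u.1.1 u'.1.1 (s e.1) (t e.1) =
          ∑ e, theta φ u.1.1 u'.1.1 (s e) (t e) * bv l r e f := by
        intro f
        have := sum_ext0 (p f) (fun _ => 1) (fun e => theta φ u.1.1 u'.1.1 (s e) (t e))
        simp only [one_smul] at this
        rw [← this]
        apply Finset.sum_congr rfl
        intro e _
        have := hlr e
        by_cases h1 : l e = f <;> by_cases h2 : r e = f
        · exact (this (h1.trans h2.symm)).elim
        all_goals simp [ext0, bv, p, h1, h2]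
      simp only [this]
      rw [Finset.sum_comm]
      apply Finset.sum_eq_zero
      intro e _
      rw [← Finset.mul_sum]
      have : ∑ f, bv l r e f = 0 := by
        simp [bv, Finset.sum_add_distrib, F_add_self]
      rw [this, mul_zero]
    simp only [h4] at h5
    rw [← Finset.sum_subset (Finset.subset_univ (Finset.univ.filter A)),
      Finset.sum_subtype (Finset.univ.filter A) (p := A) (by simp)] at h5
    · rw [← h5, Finset.sum_add_distrib]
      rfl
    · intro f _ hf
      have : ¬ A f := by simpa using hf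
      rw [(hT3 f _ (hmem u f)).2 this]
      simp
  have htriv : ∀ u : LinearMap.ker κ, ∀ f c e, p f e →
      (u.1.1.1 c (s e) = if φ (s e) = c then 0 else (Λ f (ρ f u.1.1)).1 c) ∧
      (u.1.1.1 c (t e) = if φ (t e) = c then 0 else (Λ f (ρ f u.1.1)).1 c) := by
    intro u f c e he
    have h4 : (Λ f (ρ f u.1.1)).2 = 0 := by
      by_cases hA : A f
      · have h5 : κ u.1 = 0 := u.2
        exact Prod.ext (congrFun (congrArg Prod.fst h5) ⟨f, hA⟩)
          (congrFun (congrArg Prod.snd h5) ⟨f, hA⟩)
      · exact (hT3 f _ (hmem u.1 f)).2 hA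
    have h5 := (hT3 f _ (hmem u.1 f)).1
    constructor
    · have := congrFun (congrFun h5 c) (sS _ s t ⟨e, he⟩)
      rw [tau_apply, h4] at this
      simp only [Prod.fst_zero, Prod.snd_zero, ite_self, add_zero] at this
      exact this
    · have := congrFun (congrFun h5 c) (tS _ s t ⟨e, he⟩)
      rw [tau_apply, h4] at this
      simp only [Prod.fst_zero, Prod.snd_zero, ite_self, add_zero] at this
      exact this
  let J : LinearMap.ker κ →ₗ[F] (Fin 3 → L → F) :=
    { toFun := fun u c f => (Λ f (ρ f u.1.1)).1 c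
      map_add' := by intro x y; ext c f; simp
      map_smul' := by intro a x; ext c f; simp }
  have hJ : ∀ u, J u ∈ Submodule.pi Set.univ (fun _ : Fin 3 => perp (bv l r)) := by
    intro u c _
    change J u c ∈ perp (bv l r)
    rw [mem_perp]
    have := hf (fun e => J u c (l e) + J u c (r e)) (by
      intro e he
      have hm : φ (s e) ≠ φ (t e) := by simpa [monoE] using he
      have h1 := htriv u (l e) c e (Or.inl rfl)
      have h2 := htriv u (r e) c e (Or.inr rfl)
      have : J u c (l e) = J u c (r e) := by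
        by_cases h : φ (s e) = c
        · have h' : φ (t e) ≠ c := fun h' => hm (h.trans h'.symm)
          rw [if_neg h'] at h1 h2
          exact h1.2.symm.trans h2.2
        · rw [if_neg h] at h1 h2
          exact h1.1.symm.trans h2.1
      rw [this, F_add_self]) (hF.even (J u c))
    intro e
    rw [bv_dot]
    exact congrFun this e
  have h4 : finrank F (LinearMap.ker κ) ≤ 3 * finrank F (perp (bv l r)) := by
    have := LinearMap.finrank_le_finrank_of_injective (f := J.codRestrict _ hJ) (by
      rw [injective_iff_map_eq_zero]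
      intro u hu
      have hu' : J u = 0 := congrArg Subtype.val hu
      ext c v
      obtain ⟨e, rfl | rfl⟩ := hsurj v
      · rw [(htriv u (l e) c e (Or.inl rfl)).1]
        have : (Λ (l e) (ρ (l e) u.1.1)).1 c = 0 := congrFun (congrFun hu' c) (l e)
        simp [this]
      · rw [(htriv u (l e) c e (Or.inl rfl)).2]
        have : (Λ (l e) (ρ (l e) u.1.1)).1 c = 0 := congrFun (congrFun hu' c) (l e)
        simp [this])
    rw [finrank_pi_submodule] at this
    simpa using this
  have h5 := euler hF
  have h6 := finrank_Loc s t φ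
  have h7 : finrank F (span F (Set.range (bv s t))) ≤ Fintype.card V := by
    have := finrank_perp (bv s t); omega
  rw [Fintype.card_subtype] at h3
  omega

end Pool.Agent.Lib.MP_ffa969_co
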