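import Pool.Agent.Lib.MP_ffa969_co.LinAlg

set_option autoImplicit false
set_option linter.unusedSectionVars false

namespace Pool.Agent.Lib.MP_ffa969_co

open Module Submodule

abbrev F := ZMod 2

lemma F_add_self (x : F) : x + x = 0 := CharTwo.add_self_eq_zero x

lemma F_eq_of_add {x y : F} (h : x + y = 0) : x = y := by
  revert x y; decide

variable {V E : Type} [Fintype V] [DecidableEq V] [Fintype E] [DecidableEq E]

/-- incidence vector of an edge -/
def bv (s t : E → V) (e : E) : V → F :=
  fun v => (if s e = v then 1 else 0) + (if t e = v then 1 else 0)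

/-- the vector of edge `e` in the matroid of colour `c` -/
def wv (s t : E → V) (φ : V → Fin 3) (c : Fin 3) (e : E) : V → F := fun v =>
  if φ (s e) = c then (if φ (t e) = c then 0 else if s e = v then 1 else 0)
  else (if φ (t e) = c then (if t e = v then 1 else 0) else bv s t e v)

def deg (s t : E → V) (M : Finset E) (v : V) : ℕ :=
  (M.filter (fun e => s e = v)).card + (M.filter (fun e => t e = v)).card

def verts (s t : E → V) (M : Finset E) : Finset V := M.image s ∪ M.image t

/-- no nonzero element of the cycle space is supported on `M` -/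
def Acyc (s t : E → V) (M : Set E) : Prop :=
  ∀ C : E → F, (∀ e, e ∉ M → C e = 0) → ∑ e, C e • bv s t e = 0 → C = 0

omit [Fintype E] [DecidableEq E] in
lemma bv_dot (s t : E → V) (e : E) (g : V → F) : bv s t e ⬝ᵥ g = g (s e) + g (t e) := by
  simp [bv, dotProduct, add_mul, Finset.sum_add_distrib]

omit [Fintype E] [DecidableEq E] in
lemma wv_dot (s t : E → V) (φ : V → Fin 3) (c : Fin 3) (e : E) (g : V → F) :
    wv s t φ c e ⬝ᵥ g = if φ (s e) = c then (if φ (t e) = c then 0 else g (s e))
      else (if φ (t e) = c then g (t e) else g (s e) + g (t e)) := by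
  unfold wv
  split_ifs
  · simp [dotProduct]
  · simp [dotProduct]
  · simp [dotProduct]
  · exact bv_dot s t e g

omit [Fintype V] [Fintype E] [DecidableEq E] in
lemma sum_bv_apply (s t : E → V) (M : Finset E) (v : V) :
    (∑ e ∈ M, bv s t e) v = (deg s t M v : F) := by
  simp [bv, deg, Finset.sum_apply, Finset.sum_add_distrib]

omit [Fintype V] [Fintype E] [DecidableEq E] in
lemma sum_deg (s t : E → V) (M : Finset E) (S : Finset V) (hS : verts s t M ⊆ S) :
    ∑ v ∈ S, deg s t M v = 2 * M.card := by
  unfold deg
  rw [Finset.sum_add_distrib, ← Finset.card_eq_sum_card_fiberwise (f := s),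
    ← Finset.card_eq_sum_card_fiberwise (f := t)]
  · ring
  · intro e he
    exact hS (Finset.mem_union_right _ (Finset.mem_image_of_mem _ he))
  · intro e he
    exact hS (Finset.mem_union_left _ (Finset.mem_image_of_mem _ he))

omit [Fintype V] [Fintype E] [DecidableEq E] in
lemma mem_verts {s t : E → V} {M : Finset E} {v : V} :
    v ∈ verts s t M ↔ ∃ e ∈ M, s e = v ∨ t e = v := by
  simp only [verts, Finset.mem_union, Finset.mem_image]
  constructor
  · rintro (⟨e, he, h⟩ | ⟨e, he, h⟩)
    · exact ⟨e, he, Or.inl h⟩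
    · exact ⟨e, he, Or.inr h⟩
  · rintro ⟨e, he, h | h⟩
    · exact Or.inl ⟨e, he, h⟩
    · exact Or.inr ⟨e, he, h⟩

omit [Fintype V] [Fintype E] [DecidableEq E] in
lemma deg_pos {s t : E → V} {M : Finset E} {v : V} (h : v ∈ verts s t M) : 0 < deg s t M v := by
  obtain ⟨e, he, h | h⟩ := mem_verts.mp h
  · have : 0 < (M.filter (fun e => s e = v)).card :=
      Finset.card_pos.mpr ⟨e, Finset.mem_filter.mpr ⟨he, h⟩⟩
    unfold deg; omega
  · have : 0 < (M.filter (fun e => t e = v)).card :=
      Finset.card_pos.mpr ⟨e, Finset.mem_filter.mpr ⟨he, h⟩⟩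
    unfold deg; omega

omit [Fintype V] [Fintype E] [DecidableEq E] in
lemma deg_eq_card {s t : E → V} (hne : ∀ e, s e ≠ t e) (M : Finset E) (v : V) :
    deg s t M v = (M.filter (fun e => s e = v ∨ t e = v)).card := by
  classical
  unfold deg
  rw [Finset.filter_or, Finset.card_union_of_disjoint]
  rw [Finset.disjoint_left]
  intro e h1 h2
  exact hne e ((Finset.mem_filter.mp h1).2.trans (Finset.mem_filter.mp h2).2.symm)

omit [Fintype V] in
lemma Acyc.mono {s t : E → V} {M N : Set E} (h : Acyc s t N) (hMN : M ⊆ N) : Acyc s t M :=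
  fun C hC h0 => h C (fun e he => hC e (fun h' => he (hMN h'))) h0

omit [Fintype V] in
lemma Acyc.linearIndependent {s t : E → V} {M : Finset E} (h : Acyc s t (M : Set E)) :
    LinearIndependent F (fun e : M => bv s t e.1) := by
  rw [Fintype.linearIndependent_iff]
  intro g hg e
  have := h (fun e => if he : e ∈ M then g ⟨e, he⟩ else 0)
    (fun e he => by simp only [Finset.mem_coe] at he; simp [he]) (by
      rw [← hg, ← Finset.sum_subset (Finset.subset_univ M), ← Finset.sum_coe_sort]
      · simp
      · intro e _ he; simp [he])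
  simpa using congrFun this e.1

lemma finrank_lt_verts {s t : E → V} {M : Finset E} (hM : M.Nonempty) :
    finrank F (span F (Set.range fun e : M => bv s t e.1)) + 1 ≤ (verts s t M).card := by
  obtain ⟨e0, he0⟩ := hM
  let S : Submodule F (V → F) :=
    span F (Set.range fun v : verts s t M => (Pi.single v.1 1 : V → F))
  have h2 : finrank F S ≤ (verts s t M).card := by
    have := finrank_range_le_card (R := F) (fun v : verts s t M => (Pi.single v.1 1 : V → F))
    rwa [Fintype.card_coe] at this
  have hs : ∀ e ∈ M, (Pi.single (s e) 1 : V → F) ∈ S := fun e he =>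
    subset_span ⟨⟨s e, mem_verts.mpr ⟨e, he, Or.inl rfl⟩⟩, rfl⟩
  have ht : ∀ e ∈ M, (Pi.single (t e) 1 : V → F) ∈ S := fun e he =>
    subset_span ⟨⟨t e, mem_verts.mpr ⟨e, he, Or.inr rfl⟩⟩, rfl⟩
  have h3 : span F (Set.range fun e : M => bv s t e.1) < S := by
    refine lt_of_le_of_ne ?_ ?_
    · rw [span_le]
      rintro _ ⟨e, rfl⟩
      have : bv s t e.1 = Pi.single (s e.1) 1 + Pi.single (t e.1) 1 := by
        ext v; simp [bv, Pi.single_apply, eq_comm]
      simp only [this, SetLike.mem_coe]
      exact S.add_mem (hs _ e.2) (ht _ e.2)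
    · intro heq
      have h4 : ∀ x ∈ span F (Set.range fun e : M => bv s t e.1), x ⬝ᵥ (fun _ => 1) = 0 := by
        intro x hx
        induction hx using span_induction with
        | mem x hx => obtain ⟨e, rfl⟩ := hx; rw [bv_dot]; exact F_add_self _
        | zero => simp
        | add x y _ _ hx hy => rw [add_dotProduct, hx, hy, add_zero]
        | smul a x _ hx => rw [smul_dotProduct, hx, smul_zero]
      have := h4 _ (heq ▸ hs e0 he0)
      simp at this
  have := Submodule.finrank_lt_finrank_of_lt h3
  omega

lemma card_lt_verts {s t : E → V} {M : Finset E} (hM : M.Nonempty)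
    (h : LinearIndependent F (fun e : M => bv s t e.1)) : M.card + 1 ≤ (verts s t M).card := by
  have h1 := linearIndependent_iff_card_eq_finrank_span.mp h
  rw [Fintype.card_coe, Set.finrank] at h1
  have := finrank_lt_verts (s := s) (t := t) hM
  omega

lemma exists_leaf {s t : E → V} {M : Finset E} (hM : M.Nonempty)
    (h : LinearIndependent F (fun e : M => bv s t e.1)) : ∃ v, deg s t M v = 1 := by
  by_contra hn
  push Not at hn
  have h1 := card_lt_verts hM h
  have h2 := sum_deg s t M _ (subset_refl _)
  have h3 : ∑ _v ∈ verts s t M, 2 ≤ ∑ v ∈ verts s t M, deg s t M v := by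
    apply Finset.sum_le_sum
    intro v hv
    have := deg_pos hv
    have := hn v
    omega
  simp at h3
  omega

omit [Fintype V] in
/-- in an even graph all positive degrees are at least two -/
lemma two_le_deg {s t : E → V} {M : Finset E} (hev : ∑ e ∈ M, bv s t e = 0) {v : V}
    (hv : v ∈ verts s t M) : 2 ≤ deg s t M v := by
  have h1 := deg_pos hv
  have h2 := sum_bv_apply s t M v
  rw [hev] at h2
  by_contra h
  have : deg s t M v = 1 := by omega
  rw [this] at h2
  simp at h2

end Pool.Agent.Lib.MP_ffa969_co
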