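import Mathlib

set_option autoImplicit false

namespace Pool.Agent.Lib.MP_ffa969_co

open Module Submodule

section

variable {K : Type*} [Field K]

/-- the functions orthogonal to all vectors of a family -/
def perp {V E : Type*} [Fintype V] (w : E → V → K) : Submodule K (V → K) :=
  LinearMap.ker (Matrix.of w).mulVecLin

lemma mem_perp {V E : Type*} [Fintype V] (w : E → V → K) (g : V → K) :
    g ∈ perp w ↔ ∀ e, w e ⬝ᵥ g = 0 := by
  simp only [perp, LinearMap.mem_ker, Matrix.mulVecLin_apply, funext_iff]
  rfl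

lemma finrank_perp {V E : Type*} [Fintype V] [Finite E] (w : E → V → K) :
    finrank K (perp w) + finrank K (span K (Set.range w)) = Fintype.card V := by
  have h1 := (Matrix.of w).mulVecLin.finrank_range_add_finrank_ker
  have h2 := (Matrix.of w).rank_eq_finrank_span_row
  have h3 : (Matrix.of w).row = w := rfl
  rw [h3] at h2
  unfold Matrix.rank at h2
  rw [Module.finrank_fintype_fun_eq_card] at h1
  unfold perp
  omega

lemma finrank_pi_submodule {ι W : Type*} [Fintype ι] [AddCommGroup W] [Module K W]
    [FiniteDimensional K W] (p : ι → Submodule K W) :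
    finrank K (Submodule.pi Set.univ p) = ∑ i, finrank K (p i) := by
  rw [← Module.finrank_pi_fintype]
  refine LinearEquiv.finrank_eq ?_
  exact
    { toFun := fun x i => ⟨x.1 i, x.2 i (Set.mem_univ i)⟩
      map_add' := fun _ _ => rfl
      map_smul' := fun _ _ => rfl
      invFun := fun y => ⟨fun i => (y i).1, fun i _ => (y i).2⟩
      left_inv := fun _ => rfl
      right_inv := fun _ => rfl }

lemma codim_comap {U P : Type*} [AddCommGroup U] [Module K U] [FiniteDimensional K U]
    [AddCommGroup P] [Module K P] [FiniteDimensional K P] (ρ : U →ₗ[K] P)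
    (Loc T : Submodule K P) (hρ : LinearMap.range ρ ≤ Loc) (hT : T ≤ Loc) :
    finrank K U + finrank K T ≤ finrank K (T.comap ρ) + finrank K Loc := by
  have h1 := (T.mkQ ∘ₗ ρ).finrank_range_add_finrank_ker
  have h2 := (T.mkQ ∘ₗ Loc.subtype).finrank_range_add_finrank_ker
  have h3 : LinearMap.ker (T.mkQ ∘ₗ ρ) = T.comap ρ := by
    rw [LinearMap.ker_comp, Submodule.ker_mkQ]
  have h4 : LinearMap.ker (T.mkQ ∘ₗ Loc.subtype) = T.comap Loc.subtype := by
    rw [LinearMap.ker_comp, Submodule.ker_mkQ]
  have h5 : finrank K (T.comap Loc.subtype) = finrank K T :=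
    (Submodule.comapSubtypeEquivOfLe hT).finrank_eq
  have h6 : LinearMap.range (T.mkQ ∘ₗ ρ) ≤ LinearMap.range (T.mkQ ∘ₗ Loc.subtype) := by
    rw [LinearMap.range_comp, LinearMap.range_comp, Submodule.range_subtype]
    exact Submodule.map_mono hρ
  have h7 := Submodule.finrank_mono h6
  rw [h3] at h1
  rw [h4, h5] at h2
  omega

lemma codim_iInf {U ι : Type*} [AddCommGroup U] [Module K U] [FiniteDimensional K U]
    (p : ι → Submodule K U) (a b : ι → ℕ) (h : ∀ i, finrank K U + a i ≤ finrank K (p i) + b i)
    (S : Finset ι) :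
    finrank K U + ∑ i ∈ S, a i ≤ finrank K (⨅ i ∈ S, p i : Submodule K U) + ∑ i ∈ S, b i := by
  classical
  induction S using Finset.induction_on with
  | empty =>
    have : (⨅ i ∈ (∅ : Finset ι), p i : Submodule K U) = ⊤ := by simp
    rw [this, finrank_top]; simp
  | insert i S hi ih =>
    rw [Finset.sum_insert hi, Finset.sum_insert hi, Finset.iInf_insert]
    have h1 := Submodule.finrank_sup_add_finrank_inf_eq (p i) (⨅ i ∈ S, p i)
    have h2 := Submodule.finrank_le (p i ⊔ ⨅ i ∈ S, p i)
    have := h i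
    omega

lemma finrank_isotropic {A : Type*} [Fintype A] (I : Submodule K ((A → K) × (A → K)))
    (h : ∀ p ∈ I, ∀ q ∈ I, p.1 ⬝ᵥ q.2 + p.2 ⬝ᵥ q.1 = 0) : finrank K I ≤ Fintype.card A := by
  classical
  let B : LinearMap.BilinForm K ((A → K) × (A → K)) :=
    LinearMap.mk₂ K (fun p q => p.1 ⬝ᵥ q.2 + p.2 ⬝ᵥ q.1)
      (by intros; simp [add_dotProduct]; ring) (by intros; simp [smul_dotProduct]; ring)
      (by intros; simp [dotProduct_add]; ring) (by intros; simp [dotProduct_smul]; ring)
  have hB : ∀ p q, B p q = p.1 ⬝ᵥ q.2 + p.2 ⬝ᵥ q.1 := fun _ _ => rfl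
  have hker : LinearMap.ker B = ⊥ := by
    rw [LinearMap.ker_eq_bot']
    intro p hp
    ext a
    · have := hB p (0, Pi.single a 1)
      rw [hp] at this
      simpa using this.symm
    · have := hB p (Pi.single a 1, 0)
      rw [hp] at this
      simpa using this.symm
  have h1 := LinearMap.BilinForm.finrank_add_finrank_orthogonal' (B := B) I
  rw [hker, inf_bot_eq, finrank_bot, Module.finrank_prod, Module.finrank_fintype_fun_eq_card] at h1
  have h2 : I ≤ B.orthogonal I := by
    intro q hq p hp
    exact h p hp q hq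
  have h3 := Submodule.finrank_mono h2
  omega

end

end Pool.Agent.Lib.MP_ffa969_co
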