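import Pool.Agent.Lib.MP_ffa969_co.Graph

set_option autoImplicit false
set_option linter.unusedSectionVars false

namespace Pool.Agent.Lib.MP_ffa969_co

open Module Submodule

lemma finrank_ge_of {K A B X Y : Type*} [Field K] [AddCommGroup A] [Module K A]
    [FiniteDimensional K A] [AddCommGroup B] [Module K B] [FiniteDimensional K B]
    [AddCommGroup X] [Module K X] [AddCommGroup Y] [Module K Y]
    (Ψ : A →ₗ[K] B) (P : Submodule K A) (i : X →ₗ[K] B) (hi : Function.Injective i)
    (hr : ∀ x, i x ∈ P.map Ψ) (j : Y →ₗ[K] A) (hj : Function.Injective j)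
    (hjP : ∀ y, j y ∈ P) (hj0 : ∀ y, Ψ (j y) = 0) :
    finrank K X + finrank K Y ≤ finrank K P := by
  have h1 := (Ψ.domRestrict P).finrank_range_add_finrank_ker
  rw [LinearMap.range_domRestrict] at h1
  have h2 : finrank K X ≤ finrank K (P.map Ψ) :=
    LinearMap.finrank_le_finrank_of_injective (f := i.codRestrict _ hr)
      (fun a b h => hi (congrArg Subtype.val h))
  have h3 : finrank K Y ≤ finrank K (LinearMap.ker (Ψ.domRestrict P)) :=
    LinearMap.finrank_le_finrank_of_injective
      (f := (j.codRestrict P hjP).codRestrict _ (fun y => hj0 y))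
      (fun a b h => hj (congrArg (fun z => z.1.1) h))
  omega

variable {V E : Type} [Fintype V] [DecidableEq V] [Fintype E] [DecidableEq E]

def monoE (s t : E → V) (φ : V → Fin 3) : Finset E :=
  Finset.univ.filter (fun e => φ (s e) = φ (t e))

def Wst (s t : E → V) (φ : V → Fin 3) : Finset V :=
  Finset.univ.filter (fun v => ∃ e, (s e = v ∨ t e = v) ∧ φ (s e) ≠ φ (t e))

noncomputable def rsum (s t : E → V) (φ : V → Fin 3) : ℕ :=
  ∑ c, finrank F (span F (Set.range (wv s t φ c)))

def Psi (s t : E → V) (φ : V → Fin 3) : (Fin 3 → V → F) →ₗ[F] (Wst s t φ → F) × (V → F) where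
  toFun z := (fun v => z (φ v.1) v.1, fun v => ∑ c, if φ v = c then 0 else z c v)
  map_add' x y := by
    ext v
    · simp
    · simp only [Pi.add_apply, Prod.snd_add, ← Finset.sum_add_distrib]
      apply Finset.sum_congr rfl
      intro c _
      split_ifs <;> simp
  map_smul' a x := by
    ext v
    · simp
    · simp only [Pi.smul_apply, RingHom.id_apply, Prod.smul_snd, Finset.smul_sum]
      apply Finset.sum_congr rfl
      intro c _
      split_ifs <;> simp

lemma exists_third (a b : Fin 3) : ∃ c, a ≠ c ∧ b ≠ c := by
  revert a b; decide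

lemma sum_third (y : F) (a b : Fin 3) (h : a ≠ b) :
    (∑ c, if a ≠ c ∧ b ≠ c then y else 0) = y := by
  revert y a b; decide

lemma wv_eq_bv {s t : E → V} {φ : V → Fin 3} {c : Fin 3} {e : E} (h1 : φ (s e) ≠ c)
    (h2 : φ (t e) ≠ c) : wv s t φ c e = bv s t e := by
  ext v; simp [wv, h1, h2]

lemma bv_eq_zero {s t : E → V} {e : E} {v : V} (h1 : s e ≠ v) (h2 : t e ≠ v) :
    bv s t e v = 0 := by simp [bv, h1, h2]

lemma rsum_ge (s t : E → V) (φ : V → Fin 3) {Y : Type} [AddCommGroup Y] [Module F Y]
    (j : Y →ₗ[F] (Fin 3 → V → F)) (hj : Function.Injective j)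
    (hjP : ∀ y c, j y c ∈ span F (Set.range (wv s t φ c))) (hj0 : ∀ y, Psi s t φ (j y) = 0) :
    (Wst s t φ).card + finrank F (span F (Set.range (bv s t))) + finrank F Y ≤ rsum s t φ := by
  let P := Submodule.pi Set.univ (fun c => span F (Set.range (wv s t φ c)))
  have hP : finrank F P = rsum s t φ := finrank_pi_submodule _
  have hsingle : ∀ c e, (fun c' => if c' = c then wv s t φ c e else 0) ∈ P := by
    intro c e c' _
    by_cases h : c' = c
    · subst h; simp only [if_true]; exact subset_span ⟨e, rfl⟩
    · simp [h]
  have := finrank_ge_of (Psi s t φ) P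
    (LinearMap.prodMap (LinearMap.id : (Wst s t φ → F) →ₗ[F] _)
      (span F (Set.range (bv s t))).subtype)
    (by
      rintro ⟨a, x⟩ ⟨b, y⟩ h
      simp only [LinearMap.prodMap_apply, LinearMap.id_coe, id_eq, subtype_apply,
        Prod.mk.injEq] at h
      exact Prod.ext h.1 (Subtype.ext h.2))
    (by
      rintro ⟨a, x, hx⟩
      have e1 : ((a, x) : (Wst s t φ → F) × (V → F)) =
          (∑ v : Wst s t φ, a v • ((Pi.single v 1 : Wst s t φ → F), (0 : V → F))) + (0, x) := by
        ext v
        · simp [Prod.fst_sum, Finset.sum_apply, Pi.single_apply]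
        · simp [Prod.snd_sum]
      simp only [LinearMap.prodMap_apply, LinearMap.id_coe, id_eq, subtype_apply]
      rw [e1]
      refine add_mem (sum_mem fun v _ => smul_mem _ _ ?_) ?_
      · obtain ⟨v, hv⟩ := v
        obtain ⟨e, he, hne⟩ := (Finset.mem_filter.mp hv).2
        refine ⟨_, hsingle (φ v) e, ?_⟩
        have hw : wv s t φ (φ v) e = Pi.single v 1 := by
          ext x
          rcases he with he | he
          · subst he; simp [wv, hne.symm, Pi.single_apply, eq_comm]
          · subst he; simp [wv, hne, Pi.single_apply, eq_comm]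
        rw [hw]
        ext x
        · obtain ⟨x, hx⟩ := x
          by_cases hxv : x = v
          · subst hxv; simp [Psi]
          · by_cases hc : φ x = φ v <;> simp [Psi, hxv, hc]
        · simp only [Psi, LinearMap.coe_mk, AddHom.coe_mk, Pi.zero_apply]
          apply Finset.sum_eq_zero
          intro c _
          by_cases hxv : x = v
          · subst hxv
            by_cases hc : φ x = c
            · simp [hc]
            · simp [hc, Ne.symm hc]
          · split_ifs <;> simp [hxv]
      · clear e1
        induction hx using span_induction with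
        | mem x hx =>
          obtain ⟨e, rfl⟩ := hx
          obtain ⟨c, h1, h2⟩ := exists_third (φ (s e)) (φ (t e))
          refine ⟨_, hsingle c e, ?_⟩
          rw [wv_eq_bv h1 h2]
          have hz : ∀ x, φ x = c → bv s t e x = 0 := fun x hx =>
            bv_eq_zero (by rintro rfl; exact h1 hx) (by rintro rfl; exact h2 hx)
          ext x
          · obtain ⟨x, hx⟩ := x
            by_cases hc : φ x = c
            · simp [Psi, hc, hz x hc]
            · simp [Psi, hc]
          · simp only [Psi, LinearMap.coe_mk, AddHom.coe_mk]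
            rw [Finset.sum_eq_single c]
            · by_cases hc : φ x = c
              · simp [hc, hz x hc]
              · simp [hc]
            · intro b _ hb; simp [hb]
            · simp
        | zero => exact zero_mem _
        | add x y _ _ hx hy =>
          have := add_mem hx hy
          simpa using this
        | smul a x _ hx =>
          have := smul_mem _ a hx
          simpa using this)
    j hj (fun y c _ => hjP y c) hj0
  rw [Module.finrank_prod, Module.finrank_fintype_fun_eq_card, Fintype.card_coe, hP] at this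
  exact this

lemma rank_conn (s t : E → V)
    (hconn : ∀ g : V → F, (∀ e, g (s e) = g (t e)) → ∀ v w, g v = g w) :
    Fintype.card V ≤ finrank F (span F (Set.range (bv s t))) + 1 := by
  have h1 := finrank_perp (bv s t)
  have h2 : perp (bv s t) ≤ span F {fun _ => 1} := by
    intro g hg
    rw [mem_perp] at hg
    have hg' := hconn g (fun e => F_eq_of_add (by rw [← bv_dot]; exact hg e))
    rw [mem_span_singleton]
    rcases isEmpty_or_nonempty V with h | ⟨⟨v⟩⟩
    · exact ⟨0, Subsingleton.elim _ _⟩
    · exact ⟨g v, by ext w; simp [hg' v w]⟩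
  have h3 := Submodule.finrank_mono h2
  have h4 : finrank F (span F {(fun _ => 1 : V → F)}) ≤ 1 := by
    simpa using finrank_span_le_card (R := F) ({fun _ => 1} : Set (V → F))
  omega

lemma rsum_ge_mono (s t : E → V) (φ : V → Fin 3) (hf : Acyc s t (monoE s t φ : Set E)) :
    (Wst s t φ).card + finrank F (span F (Set.range (bv s t))) + (monoE s t φ).card
      ≤ rsum s t φ := by
  let j : (monoE s t φ → F) →ₗ[F] (Fin 3 → V → F) :=
    { toFun := fun C c => ∑ e : monoE s t φ, (if φ (s e.1) = c then 0 else C e) • bv s t e.1
      map_add' := by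
        intro x y; ext c v
        simp only [Pi.add_apply, Finset.sum_apply, ← Finset.sum_add_distrib]
        apply Finset.sum_congr rfl
        intro e _
        split_ifs <;> simp [add_mul]
      map_smul' := by
        intro a x; ext c v
        simp only [Pi.smul_apply, Finset.sum_apply, RingHom.id_apply, Finset.smul_sum]
        apply Finset.sum_congr rfl
        intro e _
        split_ifs <;> simp [mul_assoc] }
  have hm : ∀ e : monoE s t φ, φ (t e.1) = φ (s e.1) := fun e =>
    ((Finset.mem_filter.mp e.2).2).symm
  have := rsum_ge s t φ j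
    (by
      rw [injective_iff_map_eq_zero]
      intro C hC
      ext e
      obtain ⟨c, h1, -⟩ := exists_third (φ (s e.1)) (φ (s e.1))
      have := Fintype.linearIndependent_iff.mp hf.linearIndependent
        (fun e => if φ (s e.1) = c then 0 else C e) (congrFun hC c) e
      simpa [h1] using this)
    (by
      intro C c
      refine sum_mem fun e _ => ?_
      by_cases h : φ (s e.1) = c
      · simp [h]
      · refine smul_mem _ _ (subset_span ⟨e.1, wv_eq_bv h (by rw [hm]; exact h)⟩))
    (by
      intro C
      have hz : ∀ (e : monoE s t φ) x, φ (s e.1) ≠ φ x → bv s t e.1 x = 0 := fun e x hx =>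
        bv_eq_zero (by rintro rfl; exact hx rfl) (by rintro rfl; exact hx (hm e).symm)
      ext x
      · simp only [Psi, j, LinearMap.coe_mk, AddHom.coe_mk, Finset.sum_apply, Prod.fst_zero,
          Pi.zero_apply]
        apply Finset.sum_eq_zero
        intro e _
        by_cases h : φ (s e.1) = φ x.1
        · simp [h]
        · simp [hz e x.1 h]
      · simp only [Psi, j, LinearMap.coe_mk, AddHom.coe_mk, Finset.sum_apply, Prod.snd_zero,
          Pi.zero_apply]
        have : ∀ c : Fin 3, (if φ x = c then (0 : F) else
            ∑ e : monoE s t φ, ((if φ (s e.1) = c then 0 else C e) • bv s t e.1) x) =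
            ∑ e : monoE s t φ, if φ x = c then 0 else C e * bv s t e.1 x := by
          intro c
          split_ifs with h
          · simp
          · apply Finset.sum_congr rfl
            intro e _
            by_cases h' : φ (s e.1) = φ x
            · simp [h', h]
            · simp [hz e x h']
        simp only [this]
        rw [Finset.sum_comm]
        apply Finset.sum_eq_zero
        intro e _
        generalize C e * bv s t e.1 x = y
        generalize φ x = a
        revert a y; decide)
  rwa [Module.finrank_fintype_fun_eq_card, Fintype.card_coe] at this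

lemma card_le_of_even (s t : E → V) (hsurj : ∀ v, ∃ e, s e = v ∨ t e = v)
    (hev : ∑ e, bv s t e = 0) :
    Fintype.card V ≤ Fintype.card E ∧
      (Fintype.card E ≤ Fintype.card V → ∀ v, deg s t Finset.univ v = 2) := by
  have h1 := sum_deg s t Finset.univ Finset.univ (Finset.subset_univ _)
  have h2 : ∀ v, 2 ≤ deg s t Finset.univ v := fun v =>
    two_le_deg hev (mem_verts.mpr (by simpa using hsurj v))
  have h3 : ∑ _v : V, 2 ≤ ∑ v, deg s t Finset.univ v := Finset.sum_le_sum fun v _ => h2 v
  simp only [Finset.sum_const, Finset.card_univ, smul_eq_mul] at h1 h3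
  refine ⟨by omega, fun h v => ?_⟩
  by_contra hv
  have h4 : ∑ _v : V, 2 < ∑ v, deg s t Finset.univ v :=
    Finset.sum_lt_sum (fun v _ => h2 v) ⟨v, Finset.mem_univ _, lt_of_le_of_ne (h2 v) (Ne.symm hv)⟩
  simp only [Finset.sum_const, Finset.card_univ, smul_eq_mul] at h4
  omega

lemma Wst_card (s t : E → V) (φ : V → Fin 3) (hsurj : ∀ v, ∃ e, s e = v ∨ t e = v)
    (hev : ∑ e, bv s t e = 0) (hf : Acyc s t (monoE s t φ : Set E)) :
    Fintype.card V ≤ (Wst s t φ).card + (monoE s t φ).card ∧
    ((monoE s t φ).Nonempty → Fintype.card V + 1 ≤ (Wst s t φ).card + (monoE s t φ).card) := by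
  set M := monoE s t φ with hM
  set N := (Wst s t φ)ᶜ with hN
  have hc : N.card + (Wst s t φ).card = Fintype.card V := by
    rw [hN, Finset.card_compl]
    have := Finset.card_le_univ (Wst s t φ)
    omega
  have hall : ∀ v ∈ N, ∀ e, (s e = v ∨ t e = v) → e ∈ M := by
    intro v hv e he
    by_contra h
    rw [hN, Finset.mem_compl] at hv
    exact hv (Finset.mem_filter.mpr ⟨Finset.mem_univ _, e, he, fun h' =>
      h (Finset.mem_filter.mpr ⟨Finset.mem_univ _, h'⟩)⟩)
  have hNV : N ⊆ verts s t M := by
    intro v hv
    obtain ⟨e, he⟩ := hsurj v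
    exact mem_verts.mpr ⟨e, hall v hv e he, he⟩
  have hdeg : ∀ v ∈ N, 2 ≤ deg s t M v := by
    intro v hv
    have h2 : 2 ≤ deg s t Finset.univ v := two_le_deg hev (mem_verts.mpr (by simpa using hsurj v))
    have : deg s t Finset.univ v = deg s t M v := by
      unfold deg
      congr 2
      · ext e; simp only [Finset.mem_filter, Finset.mem_univ, true_and, iff_and_self]
        exact fun h => hall v hv e (Or.inl h)
      · ext e; simp only [Finset.mem_filter, Finset.mem_univ, true_and, iff_and_self]
        exact fun h => hall v hv e (Or.inr h)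
    omega
  have key : M.Nonempty → N.card + 1 ≤ M.card := by
    intro hne
    have h1 := card_lt_verts hne hf.linearIndependent
    have h2 := sum_deg s t M _ (subset_refl _)
    have h3 : ∑ v ∈ verts s t M, (1 + if v ∈ N then 1 else 0) ≤
        ∑ v ∈ verts s t M, deg s t M v := by
      apply Finset.sum_le_sum
      intro v hv
      split_ifs with h
      · exact hdeg v h
      · exact deg_pos hv
    rw [Finset.sum_add_distrib, Finset.sum_ite_mem, Finset.inter_eq_right.mpr hNV] at h3
    simp only [Finset.sum_const, smul_eq_mul, mul_one] at h3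
    omega
  refine ⟨?_, fun h => by have := key h; omega⟩
  rcases M.eq_empty_or_nonempty with h | h
  · have : N = ∅ := by
      rw [h] at hNV
      simpa [verts] using hNV
    rw [this] at hc
    simp at hc
    omega
  · have := key h; omega

lemma rsum_ge_tri (s t : E → V) (φ : V → Fin 3) (hne : ∀ e, s e ≠ t e)
    (hsurj : ∀ v, ∃ e, s e = v ∨ t e = v) (hev : ∑ e, bv s t e = 0)
    (hconn : ∀ g : V → F, (∀ e, g (s e) = g (t e)) → ∀ v w, g v = g w)
    (hbi : ∀ e, φ (s e) ≠ φ (t e)) (htri : ∀ c, ∃ v, φ v = c)
    (h2 : ∀ v, deg s t Finset.univ v = 2) :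
    (Wst s t φ).card + finrank F (span F (Set.range (bv s t))) + 1 ≤ rsum s t φ := by
  let H : Fin 3 → Finset E := fun c => Finset.univ.filter (fun e => φ (s e) ≠ c ∧ φ (t e) ≠ c)
  let z : Fin 3 → V → F := fun c => ∑ e ∈ H c, bv s t e
  have hz : z ≠ 0 := by
    intro hz0
    obtain ⟨v0, -⟩ := htri 0
    obtain ⟨e0, -⟩ := hsurj v0
    obtain ⟨c, hc1, hc2⟩ := exists_third (φ (s e0)) (φ (t e0))
    have hc : ∑ e ∈ H c, bv s t e = 0 := congrFun hz0 c
    have hall : ∀ v ∈ verts s t (H c), ∀ e, (s e = v ∨ t e = v) → e ∈ H c := by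
      intro v hv e he
      have h3 := two_le_deg hc hv
      have h4 := h2 v
      rw [deg_eq_card hne] at h3 h4
      have h5 : (H c).filter (fun e => s e = v ∨ t e = v) =
          Finset.univ.filter (fun e => s e = v ∨ t e = v) :=
        Finset.eq_of_subset_of_card_le
          (Finset.filter_subset_filter _ (Finset.subset_univ _)) (by omega)
      have : e ∈ (H c).filter (fun e => s e = v ∨ t e = v) := by
        rw [h5]; simpa using he
      exact (Finset.mem_filter.mp this).1
    have hg := hconn (fun v => if v ∈ verts s t (H c) then 1 else 0) (by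
      intro e
      by_cases he : e ∈ H c
      · rw [if_pos (mem_verts.mpr ⟨e, he, Or.inl rfl⟩), if_pos (mem_verts.mpr ⟨e, he, Or.inr rfl⟩)]
      · rw [if_neg (fun h => he (hall _ h e (Or.inl rfl))),
          if_neg (fun h => he (hall _ h e (Or.inr rfl)))])
    obtain ⟨v, hv⟩ := htri c
    have h6 := hg (s e0) v
    have h7 : s e0 ∈ verts s t (H c) :=
      mem_verts.mpr ⟨e0, Finset.mem_filter.mpr ⟨Finset.mem_univ _, hc1, hc2⟩, Or.inl rfl⟩
    have h8 : v ∉ verts s t (H c) := by
      intro h
      obtain ⟨e, he, h | h⟩ := mem_verts.mp h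
      · exact (Finset.mem_filter.mp he).2.1 (h ▸ hv)
      · exact (Finset.mem_filter.mp he).2.2 (h ▸ hv)
    simp [h7, h8] at h6
  have hz0 : ∀ c x, φ x = c → z c x = 0 := by
    intro c x hx
    simp only [z, Finset.sum_apply]
    apply Finset.sum_eq_zero
    intro e he
    obtain ⟨h1, h2⟩ := (Finset.mem_filter.mp he).2
    exact bv_eq_zero (by rintro rfl; exact h1 hx) (by rintro rfl; exact h2 hx)
  have := rsum_ge s t φ (LinearMap.toSpanSingleton F _ z)
    (LinearMap.ker_eq_bot.mp (LinearMap.ker_toSpanSingleton F hz))
    (by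
      intro a c
      simp only [LinearMap.toSpanSingleton_apply, Pi.smul_apply]
      refine smul_mem _ _ (sum_mem fun e he => subset_span ⟨e, ?_⟩)
      obtain ⟨h1, h2⟩ := (Finset.mem_filter.mp he).2
      exact wv_eq_bv h1 h2)
    (by
      intro a
      rw [LinearMap.toSpanSingleton_apply, map_smul]
      have : Psi s t φ z = 0 := by
        ext x
        · exact hz0 _ _ rfl
        · simp only [Psi, LinearMap.coe_mk, AddHom.coe_mk, Prod.snd_zero, Pi.zero_apply]
          have h1 : ∀ c, (if φ x = c then 0 else z c x) = z c x := by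
            intro c; split_ifs with h
            · exact (hz0 c x h).symm
            · rfl
          simp only [h1]
          simp only [z, H, Finset.sum_apply, Finset.sum_filter]
          rw [Finset.sum_comm]
          have h3 := congrFun hev x
          rw [Finset.sum_apply] at h3
          rw [← h3.trans (Pi.zero_apply x)]
          apply Finset.sum_congr rfl
          intro e _
          have := hbi e
          simp only [ite_apply, Pi.zero_apply]
          exact sum_third _ _ _ this
      rw [this, smul_zero])
  rwa [Module.finrank_self] at this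

/-- a face is alternating if it is properly coloured and misses a colour -/
def Alt (s t : E → V) (φ : V → Fin 3) : Prop := (∀ e, φ (s e) ≠ φ (t e)) ∧ ∃ c, ∀ v, φ v ≠ c

theorem local_bound (s t : E → V) (φ : V → Fin 3) (hne : ∀ e, s e ≠ t e)
    (hsurj : ∀ v, ∃ e, s e = v ∨ t e = v) (hev : ∑ e, bv s t e = 0)
    (hconn : ∀ g : V → F, (∀ e, g (s e) = g (t e)) → ∀ v w, g v = g w)
    (hf : Acyc s t (monoE s t φ : Set E)) :
    3 * Fintype.card V ≤ rsum s t φ + Fintype.card E + 1 ∧
      (¬ Alt s t φ → 3 * Fintype.card V ≤ rsum s t φ + Fintype.card E) := by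
  have h1 := rsum_ge_mono s t φ hf
  have h2 := rank_conn s t hconn
  obtain ⟨h3, h4⟩ := card_le_of_even s t hsurj hev
  obtain ⟨h5, h6⟩ := Wst_card s t φ hsurj hev hf
  refine ⟨by omega, fun hA => ?_⟩
  rcases (monoE s t φ).eq_empty_or_nonempty with h | h
  · have hbi : ∀ e, φ (s e) ≠ φ (t e) := by
      intro e he
      have : e ∈ monoE s t φ := Finset.mem_filter.mpr ⟨Finset.mem_univ _, he⟩
      rw [h] at this
      simp at this
    have htri : ∀ c, ∃ v, φ v = c := by
      intro c
      by_contra hc
      push Not at hc
      exact hA ⟨hbi, c, hc⟩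
    by_cases hL : Fintype.card E ≤ Fintype.card V
    · have := rsum_ge_tri s t φ hne hsurj hev hconn hbi htri (h4 hL)
      rw [h] at h5
      simp at h5
      omega
    · omega
  · have := h6 h
    omega

end Pool.Agent.Lib.MP_ffa969_co
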