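import Pool.Agent.Lib.MP_ffa969_co.Dual
import Pool.Agent.Lib.MP_ffa969_co.Colour
import Pool.Agent.Lib.MP_ffa969_co.Geom

set_option autoImplicit false

namespace Pool.Agent.Lib.MP_ffa969_co

theorem planar_colourable (V : Type) [Fintype V] [DecidableEq V] (G : SimpleGraph V)
    (hG : IsPlanar G) : Colourable G (1 / 2) 3 := by
  classical
  obtain ⟨pos, arc, hpos, h1, h2⟩ := hG
  let idx := Fintype.equivFin V
  let E := {p : V × V // G.Adj p.1 p.2 ∧ idx p.1 < idx p.2}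
  let s : E → V := fun e => e.1.1
  let t : E → V := fun e => e.1.2
  have hne : ∀ e, s e ≠ t e := fun e => e.2.1.ne
  have hs : Simple s t := by
    rintro ⟨⟨a, b⟩, hab, hlt⟩ ⟨⟨c, d⟩, hcd, hlt'⟩ (⟨h3, h4⟩ | ⟨h3, h4⟩)
    · exact Subtype.ext (Prod.ext h3 h4)
    · simp only [s, t] at h3 h4
      subst h3 h4
      exact (lt_asymm hlt hlt').elim
  let c : ℝ × ℝ → ℂ := Complex.equivRealProdCLM.symm
  have hc : Function.Injective c := Complex.equivRealProdCLM.symm.injective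
  have hc' : Continuous c := Complex.equivRealProdCLM.symm.continuous
  obtain ⟨ρ, mid, hN⟩ := exists_normal s t hne (fun v => c (pos v)) (hc.comp hpos)
    (fun e a => c (arc (s e) (t e) a)) (fun e => hc'.comp (h1 _ _ e.2.1).1)
    (fun e => by rw [(h1 _ _ e.2.1).2.2.1]) (fun e => by rw [(h1 _ _ e.2.1).2.2.2.1])
    (fun e a w h => (h1 _ _ e.2.1).2.2.2.2 a w (hc h))
    (fun e e' a b hee h => (h2 _ _ _ _ e.2.1 e'.2.1
      (fun h' => hee (hs _ _ (Sym2.eq_iff.mp h'))) a b (hc h)).1)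
  obtain ⟨act, out, H, h3, h4⟩ := exists_structure (hN.whit hne) hne hs
  refine colourable_of_structure 0 act out H (fun k v h => ⟨?_, (h3 k v h).2⟩) ?_
  · obtain ⟨e, ⟨h5, h6⟩ | ⟨h5, h6⟩⟩ := (h3 k v h).1
    · rw [← h6, ← h5]; exact e.2.1
    · rw [← h6, ← h5]; exact e.2.1.symm
  · intro x y hxy
    rcases lt_trichotomy (idx x) (idx y) with h | h | h
    · exact h4 ⟨(x, y), hxy, h⟩
    · exact (hxy.ne (idx.injective h)).elim
    · obtain ⟨u, v, h5, h6⟩ := h4 ⟨(y, x), hxy.symm, h⟩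
      exact ⟨u, v, h5.symm, h6⟩

end Pool.Agent.Lib.MP_ffa969_co
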