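import Mathlib

set_option autoImplicit false

namespace Pool.Agent.Lib.MP_ffa969_co

lemma exists_mid (γ : unitInterval → ℂ) (hγ : Continuous γ) (ρ : ℝ) (hρ : 0 < ρ)
    (h : 2 * ρ < ‖γ 0 - γ 1‖) :
    ∃ μ : unitInterval → unitInterval, Continuous μ ∧ ‖γ (μ 0) - γ 0‖ = ρ ∧ ‖γ (μ 1) - γ 1‖ = ρ ∧
      ∀ a, ρ ≤ ‖γ (μ a) - γ 0‖ ∧ ρ ≤ ‖γ (μ a) - γ 1‖ := by
  have c0 : Continuous fun a => ‖γ a - γ 0‖ := by fun_prop
  have c1 : Continuous fun a => ‖γ a - γ 1‖ := by fun_prop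
  obtain ⟨σ, hσ, hσ'⟩ := (isClosed_le c0 (continuous_const (y := ρ))).isCompact.exists_isGreatest
    ⟨0, by simpa using hρ.le⟩
  have hσ1 : ‖γ σ - γ 0‖ = ρ := by
    obtain ⟨a, ha, ha'⟩ := intermediate_value_Icc (unitInterval.le_one' (t := σ)) c0.continuousOn
      (show ρ ∈ Set.Icc ‖γ σ - γ 0‖ ‖γ 1 - γ 0‖ from ⟨hσ, by rw [norm_sub_rev]; linarith⟩)
    have : a = σ := le_antisymm (hσ' (le_of_eq ha')) ha.1
    rw [← this]; exact ha'
  obtain ⟨τ, ⟨hτ0, hτ⟩, hτ'⟩ := ((isClosed_Ici (a := σ)).inter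
    (isClosed_le c1 (continuous_const (y := ρ)))).isCompact.exists_isLeast
    ⟨1, unitInterval.le_one', by simpa using hρ.le⟩
  have hτ1 : ‖γ τ - γ 1‖ = ρ := by
    obtain ⟨a, ha, ha'⟩ := intermediate_value_Icc' hτ0 c1.continuousOn
      (show ρ ∈ Set.Icc ‖γ τ - γ 1‖ ‖γ σ - γ 1‖ from ⟨hτ, by
        have := norm_sub_le_norm_sub_add_norm_sub (γ 0) (γ σ) (γ 1)
        rw [norm_sub_rev (γ 0) (γ σ)] at this
        linarith⟩)
    have : a = τ := le_antisymm ha.2 (hτ' ⟨ha.1, le_of_eq ha'⟩)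
    rw [← this]; exact ha'
  have hστ : (σ : ℝ) ≤ τ := hτ0
  have m1 : ∀ a : unitInterval, (σ : ℝ) ≤ σ + a * (τ - σ) := fun a => by
    nlinarith [a.2.1]
  have m2 : ∀ a : unitInterval, (σ : ℝ) + a * (τ - σ) ≤ τ := fun a => by
    nlinarith [a.2.2]
  refine ⟨fun a => ⟨σ + a * (τ - σ), σ.2.1.trans (m1 a), (m2 a).trans τ.2.2⟩, by fun_prop,
    by simpa using hσ1, by simpa using hτ1, fun a => ⟨?_, ?_⟩⟩
  · by_contra hn
    have h1 := hσ' (le_of_lt (not_le.mp hn))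
    have h2 : (⟨σ + a * (τ - σ), σ.2.1.trans (m1 a), (m2 a).trans τ.2.2⟩ : unitInterval) = σ :=
      le_antisymm h1 (m1 a)
    simp only [h2] at hn
    exact hn hσ1.ge
  · by_contra hn
    have h1 := hτ' (a := ⟨σ + a * (τ - σ), σ.2.1.trans (m1 a), (m2 a).trans τ.2.2⟩)
      ⟨m1 a, le_of_lt (not_le.mp hn)⟩
    have h2 : (⟨σ + a * (τ - σ), σ.2.1.trans (m1 a), (m2 a).trans τ.2.2⟩ : unitInterval) = τ :=
      le_antisymm (m2 a) h1
    simp only [h2] at hn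
    exact hn hτ1.ge

variable {V E : Type} [Finite V] [Finite E]

/-- a drawing in normal form: discs of radius `ρ` round the vertices and arcs between them -/
structure Normal (s t : E → V) (pos : V → ℂ) (ρ : ℝ) (mid : E → unitInterval → ℂ) : Prop where
  pos_rho : 0 < ρ
  cont : ∀ e, Continuous (mid e)
  far : ∀ v w, v ≠ w → 2 * ρ < ‖pos v - pos w‖
  start : ∀ e, ‖mid e 0 - pos (s e)‖ = ρ
  stop : ∀ e, ‖mid e 1 - pos (t e)‖ = ρ
  out : ∀ e a w, ρ ≤ ‖mid e a - pos w‖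
  disj : ∀ e e' a b, e ≠ e' → mid e a ≠ mid e' b

theorem exists_normal (s t : E → V) (hne : ∀ e, s e ≠ t e) (pos : V → ℂ)
    (hpos : Function.Injective pos) (γ : E → unitInterval → ℂ) (hγ : ∀ e, Continuous (γ e))
    (h0 : ∀ e, γ e 0 = pos (s e)) (h1 : ∀ e, γ e 1 = pos (t e))
    (h2 : ∀ e a w, γ e a = pos w → a = 0 ∨ a = 1)
    (h3 : ∀ e e' a b, e ≠ e' → γ e a = γ e' b → a = 0 ∨ a = 1) :
    ∃ ρ mid, Normal s t pos ρ mid := by
  have e1 : ∀ᶠ ρ in nhdsWithin (0 : ℝ) (Set.Ioi 0), ∀ v w, v ≠ w → 2 * ρ < ‖pos v - pos w‖ := by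
    simp only [Filter.eventually_all]
    intro v w hvw
    have : 0 < ‖pos v - pos w‖ := norm_pos_iff.mpr (sub_ne_zero.mpr (hpos.ne hvw))
    filter_upwards [Ioo_mem_nhdsGT (half_pos this)] with ρ hρ
    linarith [hρ.2]
  have e2 : ∀ᶠ ρ in nhdsWithin (0 : ℝ) (Set.Ioi 0),
      ∀ e w, w ≠ s e → w ≠ t e → ∀ a, ρ ≤ ‖γ e a - pos w‖ := by
    refine Filter.eventually_all.mpr fun e => Filter.eventually_all.mpr fun w =>
      Filter.eventually_all.mpr fun hs => Filter.eventually_all.mpr fun ht => ?_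
    have := hγ e
    obtain ⟨a0, -, ha0⟩ := isCompact_univ.exists_isMinOn (f := fun a => ‖γ e a - pos w‖)
      Set.univ_nonempty (by fun_prop)
    have : 0 < ‖γ e a0 - pos w‖ := by
      rw [norm_pos_iff, sub_ne_zero]
      intro h
      rcases h2 e a0 w h with rfl | rfl
      · exact hs (hpos (h.symm.trans (h0 e)))
      · exact ht (hpos (h.symm.trans (h1 e)))
    filter_upwards [Ioo_mem_nhdsGT this] with ρ hρ a
    exact hρ.2.le.trans (ha0 (Set.mem_univ a))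
  obtain ⟨ρ, ⟨hρ1, hρ2⟩, hρ⟩ := ((e1.and e2).and self_mem_nhdsWithin).exists
  have H := fun e => exists_mid (γ e) (hγ e) ρ hρ (by rw [h0, h1]; exact hρ1 _ _ (hne e))
  choose μ c m0 m1 m2 using H
  simp only [h0, h1] at m0 m1 m2
  refine ⟨ρ, fun e a => γ e (μ e a), hρ, fun e => (hγ e).comp (c e), hρ1, m0, m1, ?_, ?_⟩
  · intro e a w
    by_cases hs : w = s e
    · rw [hs]; exact (m2 e a).1
    by_cases ht : w = t e
    · rw [ht]; exact (m2 e a).2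
    exact hρ2 e w hs ht _
  · intro e e' a b hee h
    have hρ' : 0 < ρ := hρ
    rcases h3 e e' _ _ hee h with h4 | h4
    · have := (m2 e a).1
      rw [h4, h0] at this
      simp at this; linarith
    · have := (m2 e a).2
      rw [h4, h1] at this
      simp at this; linarith

end Pool.Agent.Lib.MP_ffa969_co
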