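import Mathlib

set_option autoImplicit false

namespace Pool.Agent.Lib.MP_ffa969_co

open Module Submodule

section Rado

variable {K W E ι : Type*} [Field K] [AddCommGroup W] [Module K W] [FiniteDimensional K W]

/-- rank of the family `w` on the set `S` -/
noncomputable def rk (K : Type*) {W E : Type*} [Field K] [AddCommGroup W] [Module K W]
    (w : E → W) (S : Set E) : ℕ := finrank K (span K (w '' S))

lemma rk_mono (w : E → W) {S T : Set E} (h : S ⊆ T) : rk K w S ≤ rk K w T :=
  Submodule.finrank_mono (span_mono (Set.image_mono h))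

lemma rk_submod (w : E → W) (S T : Set E) :
    rk K w (S ∪ T) + rk K w (S ∩ T) ≤ rk K w S + rk K w T := by
  unfold rk
  rw [Set.image_union, span_union]
  have h0 := Submodule.finrank_sup_add_finrank_inf_eq (span K (w '' S)) (span K (w '' T))
  have : span K (w '' (S ∩ T)) ≤ span K (w '' S) ⊓ span K (w '' T) :=
    le_inf (span_mono (Set.image_mono Set.inter_subset_left))
      (span_mono (Set.image_mono Set.inter_subset_right))
  have := Submodule.finrank_mono this
  omega

lemma rk_empty (w : E → W) : rk K w ∅ = 0 := by
  simp [rk]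

variable [Fintype E] [DecidableEq E] [Fintype ι] [DecidableEq ι]

lemma rado_aux (w : ι → E → W) (n : ℕ) : ∀ A : E → Finset ι, ∑ e, (A e).card = n →
    (∀ X : Finset E, X.card ≤ ∑ c, rk K (w c) {e | e ∈ X ∧ c ∈ A e}) →
    ∃ χ : E → ι, ∀ c, LinearIndependent K (fun e : {e // χ e = c} => w c e.1) := by
  induction n using Nat.strong_induction_on with
  | _ n ih =>
  intro A hn H
  by_cases hA : ∀ e, (A e).card ≤ 1
  · have hne : ∀ e, (A e).Nonempty := by
      intro e
      by_contra h
      rw [Finset.not_nonempty_iff_eq_empty] at h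
      have := H {e}
      have h2 : ∀ c, {e' | e' ∈ ({e} : Finset E) ∧ c ∈ A e'} = (∅ : Set E) := by
        intro c
        ext e'
        simp only [Finset.mem_singleton, Set.mem_ofPred_eq, Set.mem_empty_iff_false, iff_false,
          not_and]
        rintro rfl
        simp [h]
      simp only [h2, rk_empty] at this
      simp at this
    choose χ hχ using hne
    have hAe : ∀ e c, c ∈ A e ↔ χ e = c := by
      intro e c
      constructor
      · intro hc
        exact (Finset.card_le_one.mp (hA e) _ (hχ e) _ hc)
      · rintro rfl; exact hχ e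
    refine ⟨χ, fun c => ?_⟩
    rw [linearIndependent_iff_card_le_finrank_span]
    have := H (Finset.univ.filter fun e => χ e = c)
    rw [Finset.sum_eq_single c] at this
    · rw [Fintype.card_subtype]
      refine this.trans ?_
      unfold rk Set.finrank
      apply Submodule.finrank_mono
      apply span_mono
      rintro _ ⟨e, ⟨he, -⟩, rfl⟩
      exact ⟨⟨e, by simpa using he⟩, rfl⟩
    · intro b _ hb
      have : {e | e ∈ (Finset.univ.filter fun e => χ e = c) ∧ b ∈ A e} = (∅ : Set E) := by
        ext e
        simp only [Finset.mem_filter, Finset.mem_univ, true_and, Set.mem_ofPred_eq,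
          Set.mem_empty_iff_false, iff_false, not_and, hAe]
        rintro rfl h
        exact hb h.symm
      rw [this, rk_empty]
    · simp
  · push Not at hA
    obtain ⟨e0, he0⟩ := hA
    obtain ⟨c1, hc1, c2, hc2, hne⟩ := Finset.one_lt_card.mp he0
    have key : ∀ c' ∈ A e0, ∑ e, (Function.update A e0 ((A e0).erase c') e).card < n := by
      intro c' hc'
      rw [← hn]
      apply Finset.sum_lt_sum
      · intro e _
        by_cases h : e = e0
        · subst h; simp [Finset.card_erase_le]
        · simp [Function.update_of_ne h]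
      · exact ⟨e0, Finset.mem_univ _, by simpa using Finset.card_erase_lt_of_mem hc'⟩
    by_cases h1 : ∀ X : Finset E, X.card ≤
        ∑ c, rk K (w c) {e | e ∈ X ∧ c ∈ Function.update A e0 ((A e0).erase c1) e}
    · exact ih _ (key c1 hc1) _ rfl h1
    by_cases h2 : ∀ X : Finset E, X.card ≤
        ∑ c, rk K (w c) {e | e ∈ X ∧ c ∈ Function.update A e0 ((A e0).erase c2) e}
    · exact ih _ (key c2 hc2) _ rfl h2
    exfalso
    push Not at h1 h2
    obtain ⟨X1, h1⟩ := h1
    obtain ⟨X2, h2⟩ := h2
    have mem : ∀ (c' : ι) (X : Finset E), (∑ c, rk K (w c)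
        {e | e ∈ X ∧ c ∈ Function.update A e0 ((A e0).erase c') e} < X.card) → e0 ∈ X := by
      intro c' X hX
      by_contra hn0
      have := H X
      have h3 : ∀ c, {e | e ∈ X ∧ c ∈ Function.update A e0 ((A e0).erase c') e} =
          {e | e ∈ X ∧ c ∈ A e} := by
        intro c
        ext e
        simp only [Set.mem_ofPred_eq, and_congr_right_iff]
        intro he
        have : e ≠ e0 := by rintro rfl; exact hn0 he
        rw [Function.update_of_ne this]
      simp only [h3] at hX
      omega
    have m1 := mem c1 X1 h1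
    have m2 := mem c2 X2 h2
    have hU := H (X1 ∪ X2)
    have hI := H ((X1 ∩ X2).erase e0)
    have hsum : ∑ c, rk K (w c) {e | e ∈ X1 ∪ X2 ∧ c ∈ A e} +
        ∑ c, rk K (w c) {e | e ∈ (X1 ∩ X2).erase e0 ∧ c ∈ A e} ≤
        ∑ c, rk K (w c) {e | e ∈ X1 ∧ c ∈ Function.update A e0 ((A e0).erase c1) e} +
        ∑ c, rk K (w c) {e | e ∈ X2 ∧ c ∈ Function.update A e0 ((A e0).erase c2) e} := by
      rw [← Finset.sum_add_distrib, ← Finset.sum_add_distrib]
      apply Finset.sum_le_sum
      intro c _
      refine le_trans (add_le_add (rk_mono _ ?_) (rk_mono _ ?_)) (rk_submod _ _ _)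
      · rintro e ⟨he, hc⟩
        by_cases h : e = e0
        · subst h
          by_cases hc' : c = c1
          · right
            refine ⟨m2, ?_⟩
            simp [hc', hne, hc1]
          · left
            refine ⟨m1, ?_⟩
            simp [hc, hc']
        · rcases Finset.mem_union.mp he with he | he
          · left; exact ⟨he, by rwa [Function.update_of_ne h]⟩
          · right; exact ⟨he, by rwa [Function.update_of_ne h]⟩
      · rintro e ⟨he, hc⟩
        obtain ⟨h, he⟩ := Finset.mem_erase.mp he
        obtain ⟨he1, he2⟩ := Finset.mem_inter.mp he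
        exact ⟨⟨he1, by rwa [Function.update_of_ne h]⟩, ⟨he2, by rwa [Function.update_of_ne h]⟩⟩
    have c1' := Finset.card_union_add_card_inter X1 X2
    have c2' := Finset.card_erase_of_mem (Finset.mem_inter.mpr ⟨m1, m2⟩)
    have c3' : 0 < (X1 ∩ X2).card := Finset.card_pos.mpr ⟨e0, Finset.mem_inter.mpr ⟨m1, m2⟩⟩
    omega

/-- Rado's theorem for a partition into linearly independent families. -/
theorem rado (w : ι → E → W) (H : ∀ X : Finset E, X.card ≤ ∑ c, rk K (w c) (X : Set E)) :
    ∃ χ : E → ι, ∀ c, LinearIndependent K (fun e : {e // χ e = c} => w c e.1) := by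
  refine rado_aux w _ (fun _ => Finset.univ) rfl ?_
  intro X
  simpa using H X

end Rado

end Pool.Agent.Lib.MP_ffa969_co
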