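import Pool.Agent.Lib.MP_ffa969_co.Global
import Pool.Agent.Lib.MP_ffa969_co.Rado

set_option autoImplicit false
set_option linter.unusedSectionVars false

namespace Pool.Agent.Lib.MP_ffa969_co

open Module Submodule

variable {V E : Type} [Fintype V] [DecidableEq V] [Fintype E] [DecidableEq E]

/-- existence of a combinatorial dual -/
def Whit (s t : E → V) : Prop := ∃ (L : Type) (l r : E → L), Faces s t l r

lemma whit_sub {s t : E → V} (h : Whit s t) (p : E → Prop) [DecidablePred p] :
    Whit (sS p s t) (tS p s t) := by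
  obtain ⟨L, l, r, hF⟩ := h
  let Z := {C : {e // p e} → F // ∑ e, C e • bv (sS p s t) (tS p s t) e = 0}
  have H : ∀ C : Z, ∃ I : L → F, ∀ e, ext0 p C.1 e = I (l e) + I (r e) := fun C =>
    hF.cut _ ((cycle_sub p s t C.1).mp C.2)
  choose I hI using H
  let lab : L → (Z → F) := fun f C => I C f
  refine ⟨Z → F, fun e => lab (l e.1), fun e => lab (r e.1), ?_, ?_⟩
  · intro H
    rw [cycle_sub, ← hF.even (fun f => H (lab f))]
    apply Finset.sum_congr rfl
    intro e _
    congr 1
    by_cases he : p e
    · simp [ext0, he]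
    · have : lab (l e) = lab (r e) := by
        ext C
        apply F_eq_of_add
        have := hI C e
        simp only [ext0, he, dite_false] at this
        exact this.symm
      simp [ext0, he, this, F_add_self]
  · intro C hC
    refine ⟨fun x => x ⟨C, hC⟩, fun e => ?_⟩
    have := hI ⟨C, hC⟩ e.1
    simpa [ext0, e.2] using this

lemma whit_refine {s t : E → V} (h : Whit s t) :
    ∃ (L : Type) (_ : Fintype L) (_ : DecidableEq L) (l r : E → L), Faces s t l r ∧
      (∀ f, ∃ e, l e = f ∨ r e = f) ∧ FConn s t l r := by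
  classical
  obtain ⟨L, l, r, hF⟩ := h
  let lab : E × Bool → L := fun x => if x.2 then l x.1 else r x.1
  let R : E × Bool → E × Bool → Prop := fun x y =>
    lab x = lab y ∧ ∃ v, (s x.1 = v ∨ t x.1 = v) ∧ (s y.1 = v ∨ t y.1 = v)
  let L' := Quot R
  have : Finite L' := Quot.finite R
  refine ⟨L', Fintype.ofFinite _, inferInstance, fun e => Quot.mk R (e, true),
    fun e => Quot.mk R (e, false), ⟨?_, ?_⟩, ?_, ?_⟩
  · intro H
    ext v
    let H' : L → F := fun f =>
      if h : ∃ x : E × Bool, lab x = f ∧ (s x.1 = v ∨ t x.1 = v) then H (Quot.mk R h.choose) else 0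
    have hH' : ∀ x : E × Bool, (s x.1 = v ∨ t x.1 = v) → H' (lab x) = H (Quot.mk R x) := by
      intro x hx
      have h : ∃ y : E × Bool, lab y = lab x ∧ (s y.1 = v ∨ t y.1 = v) := ⟨x, rfl, hx⟩
      simp only [H', dif_pos h]
      congr 1
      exact Quot.sound ⟨h.choose_spec.1, v, h.choose_spec.2, hx⟩
    have := congrFun (hF.even H') v
    rw [← this]
    simp only [Finset.sum_apply, Pi.smul_apply]
    apply Finset.sum_congr rfl
    intro e _
    by_cases he : s e = v ∨ t e = v
    · rw [← hH' (e, true) he, ← hH' (e, false) he]; rfl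
    · push Not at he
      rw [bv_eq_zero he.1 he.2]; simp
  · intro C hC
    obtain ⟨I, hI⟩ := hF.cut C hC
    exact ⟨Quot.lift (fun x => I (lab x)) (fun a b h => by rw [h.1]), fun e => hI e⟩
  · intro f
    obtain ⟨⟨e, b⟩, rfl⟩ := Quot.exists_rep f
    cases b
    · exact ⟨e, Or.inr rfl⟩
    · exact ⟨e, Or.inl rfl⟩
  · intro f g hg e e' he he'
    have hP : ∀ x : E × Bool, Quot.mk R x = f → g (s x.1) = g (t x.1) := by
      rintro ⟨e, b⟩ hx
      cases b
      · exact hg e (Or.inr hx)
      · exact hg e (Or.inl hx)
    let G : L' → Option F := Quot.lift (fun x => if Quot.mk R x = f then some (g (s x.1)) else none)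
      (by
        intro a b hab
        have h1 : Quot.mk R a = Quot.mk R b := Quot.sound hab
        by_cases ha : Quot.mk R a = f
        · have hb : Quot.mk R b = f := h1 ▸ ha
          rw [if_pos ha, if_pos hb]
          obtain ⟨-, v, h2, h3⟩ := hab
          have h4 : g (s a.1) = g v := by
            rcases h2 with h | h
            · rw [h]
            · rw [hP a ha, h]
          have h5 : g (s b.1) = g v := by
            rcases h3 with h | h
            · rw [h]
            · rw [hP b hb, h]
          rw [h4, h5]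
        · have hb : ¬ Quot.mk R b = f := h1 ▸ ha
          rw [if_neg ha, if_neg hb])
    have hG : ∀ x : E × Bool, Quot.mk R x = f → G f = some (g (s x.1)) := by
      intro x hx
      have : G (Quot.mk R x) = if Quot.mk R x = f then some (g (s x.1)) else none := rfl
      rw [if_pos hx, hx] at this
      exact this
    have h1 : G f = some (g (s e)) := by
      rcases he with h | h
      · exact hG (e, true) h
      · exact hG (e, false) h
    have h2 : G f = some (g (s e')) := by
      rcases he' with h | h
      · exact hG (e', true) h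
      · exact hG (e', false) h
    exact Option.some.inj (h1.symm.trans h2)

lemma rk_erase {W : Type} [AddCommGroup W] [Module F W] [FiniteDimensional F W] (w : E → W)
    (X : Finset E) (e : E) (he : e ∈ X) (h : w e ∉ span F (w '' (X.erase e : Set E))) :
    rk F w (X.erase e : Set E) + 1 ≤ rk F w (X : Set E) := by
  apply Submodule.finrank_lt_finrank_of_lt
  refine lt_of_le_of_ne (span_mono (Set.image_mono ?_)) ?_
  · exact_mod_cast Finset.erase_subset e X
  · intro h'
    exact h (h' ▸ subset_span ⟨e, he, rfl⟩)

def inX (X : Finset E) (e : E) : Prop := e ∈ X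

instance (X : Finset E) : DecidablePred (inX X) := fun e => inferInstanceAs (Decidable (e ∈ X))

lemma card_inX (X : Finset E) : Fintype.card {e // inX X e} = X.card :=
  Fintype.card_of_subtype (p := inX X) X (fun _ => Iff.rfl)

lemma bridgeless {s t : E → V} {X : Finset E} {L : Type} {l r : {e // inX X e} → L}
    (hF : Faces (sS (inX X) s t) (tS (inX X) s t) l r) (e : {e // inX X e})
    (h : bv s t e.1 ∈ span F (bv s t '' (X.erase e.1 : Set E))) : l e ≠ r e := by
  rw [Submodule.mem_span_image_finset_iff_exists_fun'] at h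
  obtain ⟨c, hc⟩ := h
  obtain ⟨I, hI⟩ := hF.cut (fun e' => if e'.1 = e.1 then 1 else c e'.1) (by
    rw [cycle_sub, sum_ext0, ← Finset.sum_subtype X (p := inX X) (fun _ => Iff.rfl)
      (fun e' => (if e' = e.1 then 1 else c e') • bv s t e'), ← Finset.add_sum_erase X _ e.2,
      if_pos rfl, one_smul]
    rw [Finset.sum_congr rfl (g := fun e' => c e' • bv s t e'), hc]
    · ext v; exact F_add_self _
    · intro x hx
      rw [if_neg (Finset.mem_erase.mp hx).1])
  intro hlr
  have := hI e
  rw [hlr, F_add_self] at this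
  simp at this

lemma rk_sub (s t : E → V) (X : Finset E) (w : E → V → F)
    (w' : {e // inX X e} → SV s t (inX X) → F) (h : ∀ e v, w' e v = w e.1 v.1) :
    finrank F (span F (Set.range w')) ≤ rk F w (X : Set E) := by
  let ρ : (V → F) →ₗ[F] (SV s t (inX X) → F) := LinearMap.funLeft F F Subtype.val
  have : span F (Set.range w') = (span F (w '' (X : Set E))).map ρ := by
    rw [Submodule.map_span, ← Set.image_comp]
    congr 1
    ext x
    constructor
    · rintro ⟨e, rfl⟩
      exact ⟨e.1, e.2, by ext v; exact (h e v).symm⟩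
    · rintro ⟨e, he, rfl⟩
      exact ⟨⟨e, he⟩, by ext v; exact h _ v⟩
  rw [this]
  exact Submodule.finrank_map_le _ _

theorem rank_ineq {s t : E → V} (hW : Whit s t) (hne : ∀ e, s e ≠ t e) (hs : Simple s t)
    (φ : V → Fin 3) (hf : Acyc s t (monoE s t φ : Set E)) (X : Finset E) :
    X.card ≤ ∑ c, rk F (wv s t φ c) (X : Set E) := by
  induction X using Finset.strongInduction with
  | H X ih =>
  by_cases h : ∃ e ∈ X, ∃ c, wv s t φ c e ∉ span F (wv s t φ c '' (X.erase e : Set E))
  · obtain ⟨e, he, c, hc⟩ := h
    have h1 := ih _ (Finset.erase_ssubset he)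
    have h2 : ∑ c, rk F (wv s t φ c) (X.erase e : Set E) < ∑ c, rk F (wv s t φ c) (X : Set E) :=
      Finset.sum_lt_sum (fun c _ => rk_mono _ (by exact_mod_cast Finset.erase_subset e X))
        ⟨c, Finset.mem_univ _, rk_erase _ X e he hc⟩
    rw [Finset.card_erase_of_mem he] at h1
    omega
  · push Not at h
    obtain ⟨L, _, _, l, r, hF, hL, hc⟩ := whit_refine (whit_sub hW (inX X))
    have hlr : ∀ e, l e ≠ r e := by
      intro e
      apply bridgeless hF
      obtain ⟨c, h1, h2⟩ := exists_third (φ (s e.1)) (φ (t e.1))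
      let m : (V → F) →ₗ[F] (V → F) :=
        { toFun := fun g v => if φ v = c then 0 else g v
          map_add' := by intro x y; ext v; simp only [Pi.add_apply]; split_ifs <;> simp
          map_smul' := by
            intro a x; ext v; simp only [Pi.smul_apply, RingHom.id_apply]; split_ifs <;> simp }
      have hm : ∀ e', φ (s e') ≠ c → φ (t e') ≠ c → m (wv s t φ c e') = bv s t e' := by
        intro e' h1 h2
        rw [wv_eq_bv h1 h2]
        ext v
        simp only [m, LinearMap.coe_mk, AddHom.coe_mk, ite_eq_right_iff]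
        intro hv
        exact (bv_eq_zero (by rintro rfl; exact h1 hv) (by rintro rfl; exact h2 hv)).symm
      have h3 := Submodule.mem_map_of_mem (f := m) (h e.1 e.2 c)
      rw [hm _ h1 h2, Submodule.map_span] at h3
      refine (span_le.mpr ?_) h3
      rintro _ ⟨_, ⟨e', he', rfl⟩, rfl⟩
      by_cases h4 : φ (s e') ≠ c ∧ φ (t e') ≠ c
      · rw [hm _ h4.1 h4.2]
        exact subset_span ⟨e', he', rfl⟩
      · have : m (wv s t φ c e') = 0 := by
          ext v
          simp only [m, LinearMap.coe_mk, AddHom.coe_mk, Pi.zero_apply, ite_eq_left_iff, wv]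
          intro hv
          split_ifs with h5 h6 h7 h8 h9
          · rfl
          · exact (hv (h7 ▸ h5)).elim
          · rfl
          · exact (hv (h9 ▸ h8)).elim
          · rfl
          · exact (h4 ⟨h5, h8⟩).elim
        rw [this]
        exact zero_mem _
    have := core _ _ (fun v => φ v.1) l r (hne_sub _ hne) (simple_sub _ hs) (surj_sub _ s t) hF
      hlr hL hc (acyc_sub _ hf)
    rw [card_inX] at this
    refine this.trans (Finset.sum_le_sum fun c _ => rk_sub s t X _ _ (wv_sub _ s t φ c))

lemma three_le_card {s t : E → V} (hne : ∀ e, s e ≠ t e) (hs : Simple s t)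
    (hev : ∑ e, bv s t e = 0) (e0 : E) : 3 ≤ Fintype.card E := by
  obtain ⟨e1, h1, h1'⟩ := exists_other hne hev e0 (s e0) (Or.inl rfl)
  obtain ⟨e2, h2, h2'⟩ := exists_other hne hev e0 (t e0) (Or.inr rfl)
  have h3 : e1 ≠ e2 := by
    rintro rfl
    apply h1
    apply hs
    rcases h1' with a | a <;> rcases h2' with b | b
    · exact (hne e0 (a.symm.trans b)).elim
    · exact Or.inl ⟨a, b⟩
    · exact Or.inr ⟨b, a⟩
    · exact (hne e0 (a.symm.trans b)).elim
  have := Finset.card_le_univ ({e0, e1, e2} : Finset E)
  rwa [Finset.card_eq_three.mpr ⟨e0, e1, e2, h1.symm, h2.symm, h3, rfl⟩] at this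

theorem sparse_rk {s t : E → V} (hW : Whit s t) (hne : ∀ e, s e ≠ t e) (hs : Simple s t)
    (X : Finset E) : X.card ≤ 3 * rk F (bv s t) (X : Set E) := by
  induction X using Finset.strongInduction with
  | H X ih =>
  by_cases h : ∃ e ∈ X, bv s t e ∉ span F (bv s t '' (X.erase e : Set E))
  · obtain ⟨e, he, hc⟩ := h
    have h1 := ih _ (Finset.erase_ssubset he)
    have h2 := rk_erase _ X e he hc
    rw [Finset.card_erase_of_mem he] at h1
    omega
  · push Not at h
    obtain ⟨L, _, _, l, r, hF, hL, hc⟩ := whit_refine (whit_sub hW (inX X))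
    have hlr : ∀ e, l e ≠ r e := fun e => bridgeless hF e (h e.1 e.2)
    have h1 := euler hF
    have h2 := sum_face_card hlr
    have h3 : ∑ _f : L, 3 ≤ ∑ f, Fintype.card {e // l e = f ∨ r e = f} := by
      apply Finset.sum_le_sum
      intro f _
      obtain ⟨e, he⟩ := hL f
      exact three_le_card (hne_sub _ (hne_sub _ hne)) (simple_sub _ (simple_sub _ hs))
        (face_even hF hlr f) ⟨e, he⟩
    have h4 := rk_sub s t X _ _ (bv_sub _ s t)
    simp only [Finset.sum_const, Finset.card_univ, smul_eq_mul, card_inX] at h1 h2 h3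
    omega

theorem sparse {s t : E → V} (hW : Whit s t) (hne : ∀ e, s e ≠ t e) (hs : Simple s t)
    (X : Finset E) (hX : X.Nonempty) : X.card + 3 ≤ 3 * (verts s t X).card := by
  have h1 := sparse_rk hW hne hs X
  have h2 := finrank_lt_verts (s := s) (t := t) hX
  have h3 : rk F (bv s t) (X : Set E) = finrank F (span F (Set.range fun e : X => bv s t e.1)) := by
    unfold rk
    rw [Set.image_eq_range]
    rfl
  omega

end Pool.Agent.Lib.MP_ffa969_co
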