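import Pool.Agent.Lib.MP_ffa969_co.Graph

set_option autoImplicit false

namespace Pool.Agent.Lib.MP_ffa969_co

open Complex
open scoped Real

/-- `z` is the total variation of a continuous logarithm along `γ` -/
def IsVar (γ : unitInterval → ℂ) (z : ℂ) : Prop :=
  ∃ L : unitInterval → ℂ, Continuous L ∧ (∀ a, exp (L a) = γ a) ∧ z = L 1 - L 0

lemma IsVar.unique {γ : unitInterval → ℂ} {z z' : ℂ} (h : IsVar γ z) (h' : IsVar γ z') :
    z = z' := by
  obtain ⟨L, hL, h1, rfl⟩ := h
  obtain ⟨L', hL', h1', rfl⟩ := h'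
  have := isCoveringMap_exp.eq_of_comp_eq (g₁ := L) (g₂ := fun a => L' a + (L 0 - L' 0)) hL
    (hL'.add continuous_const) (by
      ext a
      simp only [Function.comp_apply]
      rw [exp_add, exp_sub, h1, h1', h1, h1', div_self (h1 0 ▸ exp_ne_zero _), mul_one]) 0
    (by simp)
  have := congrFun this 1
  rw [this]; ring

lemma exists_isVar {γ : unitInterval → ℂ} (hγ : Continuous γ) (h0 : ∀ a, γ a ≠ 0) :
    ∃ n : ℤ, IsVar γ (log (γ 1) - log (γ 0) + n * (2 * π * I)) := by
  obtain ⟨L, h1, h2⟩ := isCoveringMap_exp.exists_path_lifts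
    (⟨fun a => ⟨γ a, h0 a⟩, hγ.subtype_mk _⟩ : C(unitInterval, {z : ℂ // z ≠ 0})) (log (γ 0))
    (Subtype.ext (exp_log (h0 0)).symm)
  have h3 : ∀ a, exp (L a) = γ a := fun a => congrArg Subtype.val (congrFun h1 a)
  obtain ⟨n, hn⟩ := exp_eq_exp_iff_exists_int.mp ((h3 1).trans (exp_log (h0 1)).symm)
  exact ⟨n, L, L.continuous, h3, by rw [hn, h2]; ring⟩

open Classical in
/-- parity of the number of crossings of `γ` with the ray going left from `p` -/
noncomputable def nu (γ : unitInterval → ℂ) (p : ℂ) : F :=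
  if h : ∃ n : ℤ, IsVar (fun a => γ a - p) (log (γ 1 - p) - log (γ 0 - p) + n * (2 * π * I))
  then ((h.choose : ℤ) : F) else 0

lemma nu_eq {γ : unitInterval → ℂ} {p : ℂ} {n : ℤ}
    (h : IsVar (fun a => γ a - p) (log (γ 1 - p) - log (γ 0 - p) + n * (2 * π * I))) :
    nu γ p = n := by
  have h' : ∃ n : ℤ, IsVar (fun a => γ a - p)
    (log (γ 1 - p) - log (γ 0 - p) + n * (2 * π * I)) := ⟨n, h⟩
  rw [nu, dif_pos h']
  have h1 := h'.choose_spec.unique h
  have h2 : ((h'.choose : ℤ) : ℂ) = n :=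
    mul_right_cancel₀ two_pi_I_ne_zero (add_left_cancel h1)
  rw [Int.cast_injective h2]

open Classical in
noncomputable def kk (p p' Z : ℂ) : ℤ :=
  if h : ∃ n : ℤ, log (Z - p') = log (Z - p) + log ((Z - p') / (Z - p)) + n * (2 * π * I)
  then h.choose else 0

lemma kk_spec {p p' Z : ℂ} (h : Z - p ≠ 0) (h' : Z - p' ≠ 0) :
    log (Z - p') = log (Z - p) + log ((Z - p') / (Z - p)) + kk p p' Z * (2 * π * I) := by
  have h1 : ∃ n : ℤ, log (Z - p') = log (Z - p) + log ((Z - p') / (Z - p)) + n * (2 * π * I) := by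
    apply exp_eq_exp_iff_exists_int.mp
    rw [exp_add, exp_log h, exp_log h', exp_log (div_ne_zero h' h)]
    field_simp
  rw [kk, dif_pos h1]
  exact h1.choose_spec

lemma F_neg (x : F) : -x = x := by revert x; decide

lemma nu_near {γ : unitInterval → ℂ} (hγ : Continuous γ) {p p' : ℂ}
    (h : ∀ a, ‖p' - p‖ < ‖γ a - p‖) :
    nu γ p' = nu γ p + (kk p p' (γ 0) : F) + (kk p p' (γ 1) : F) := by
  have h0 : ∀ a, γ a - p ≠ 0 := fun a h' => by
    have := h a; rw [h', norm_zero] at this; exact absurd this (not_lt.mpr (norm_nonneg _))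
  have hs : ∀ a, (γ a - p') / (γ a - p) ∈ slitPlane := by
    intro a
    have : (γ a - p') / (γ a - p) = 1 + (p - p') / (γ a - p) := by
      field_simp [h0 a]; ring
    rw [this]
    apply mem_slitPlane_of_norm_lt_one
    rw [norm_div, div_lt_one (norm_pos_iff.mpr (h0 a)), norm_sub_rev]
    exact h a
  have h0' : ∀ a, γ a - p' ≠ 0 := fun a h' => by
    have := slitPlane_ne_zero (hs a); rw [h', zero_div] at this; exact this rfl
  obtain ⟨n, hn⟩ := exists_isVar (γ := fun a => γ a - p) (hγ.sub continuous_const) h0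
  rw [nu_eq hn]
  obtain ⟨L, hL, h1, h2⟩ := hn
  rw [nu_eq (n := n - kk p p' (γ 1) + kk p p' (γ 0))]
  · push_cast
    rw [sub_eq_add_neg, F_neg]; ring
  · refine ⟨fun a => L a + log ((γ a - p') / (γ a - p)), hL.add ?_, fun a => ?_, ?_⟩
    · exact Continuous.clog ((hγ.sub continuous_const).div (hγ.sub continuous_const) h0) hs
    · rw [exp_add, h1, exp_log (slitPlane_ne_zero (hs a))]
      field_simp [h0 a]
    · rw [kk_spec (h0 1) (h0' 1), kk_spec (h0 0) (h0' 0)]
      push_cast
      linear_combination h2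

/-- the segment from `A` to `B` -/
noncomputable def seg (A B : ℂ) (a : unitInterval) : ℂ := A + (a : ℝ) * (B - A)

lemma seg_zero (A B : ℂ) : seg A B 0 = A := by simp [seg]
lemma seg_one (A B : ℂ) : seg A B 1 = B := by simp [seg]
lemma continuous_seg (A B : ℂ) : Continuous (seg A B) := by unfold seg; fun_prop

lemma isVar_seg {A B p : ℂ} (h : ((B - p) / (A - p)).im ≠ 0) :
    IsVar (fun a => seg A B a - p) (log ((B - p) / (A - p))) := by
  have hA : A - p ≠ 0 := by rintro h'; simp [h'] at h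
  have hs : ∀ a : unitInterval, 1 + ((a : ℝ) : ℂ) * ((B - p) / (A - p) - 1) ∈ slitPlane := by
    intro a
    rw [mem_slitPlane_iff]
    by_cases ha : (a : ℝ) = 0
    · left; simp [ha]
    · right; simp [ha, h]
  refine ⟨fun a => log (A - p) + log (1 + ((a : ℝ) : ℂ) * ((B - p) / (A - p) - 1)), ?_, ?_, ?_⟩
  · exact continuous_const.add (Continuous.clog (by fun_prop) hs)
  · intro a
    rw [exp_add, exp_log hA, exp_log (slitPlane_ne_zero (hs a))]
    simp only [seg]
    field_simp
    ring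
  · simp

lemma nu_jump {A B p p' : ℂ} (h1 : ((B - p) / (A - p)).re < 0) (h2 : ((B - p) / (A - p)).im < 0)
    (h3 : ((B - p') / (A - p')).re < 0) (h4 : 0 < ((B - p') / (A - p')).im)
    (h5 : 0 < ((B - p') / (B - p)).re) (h6 : 0 < ((A - p') / (A - p)).re) :
    nu (seg A B) p' = nu (seg A B) p + (kk p p' A : F) + (kk p p' B : F) + 1 := by
  have hA : A - p ≠ 0 := by rintro h'; simp [h'] at h1
  have hB : B - p ≠ 0 := by rintro h'; simp [h'] at h1
  have hA' : A - p' ≠ 0 := by rintro h'; simp [h'] at h3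
  have hB' : B - p' ≠ 0 := by rintro h'; simp [h'] at h3
  obtain ⟨n, hn⟩ : ∃ n : ℤ, log ((B - p) / (A - p)) =
      log (B - p) - log (A - p) + n * (2 * π * I) := by
    apply exp_eq_exp_iff_exists_int.mp
    rw [exp_sub, exp_log hA, exp_log hB, exp_log (div_ne_zero hB hA)]
  obtain ⟨n', hn'⟩ : ∃ n : ℤ, log ((B - p') / (A - p')) =
      log (B - p') - log (A - p') + n * (2 * π * I) := by
    apply exp_eq_exp_iff_exists_int.mp
    rw [exp_sub, exp_log hA', exp_log hB', exp_log (div_ne_zero hB' hA')]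
  rw [nu_eq (p := p) (n := n) (by rw [seg_zero, seg_one, ← hn]; exact isVar_seg h2.ne),
    nu_eq (p := p') (n := n') (by rw [seg_zero, seg_one, ← hn']; exact isVar_seg h4.ne')]
  have e1 := kk_spec hA hA'
  have e2 := kk_spec hB hB'
  have e3 : log ((B - p') / (A - p')) - log ((B - p) / (A - p)) - log ((B - p') / (B - p)) +
      log ((A - p') / (A - p)) = ((n' - n + kk p p' B - kk p p' A : ℤ) : ℂ) * (2 * π * I) := by
    push_cast
    linear_combination hn' - hn + e2 - e1
  have e4 := congrArg Complex.im e3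
  simp only [add_im, sub_im, log_im] at e4
  have e5 : (((n' - n + kk p p' B - kk p p' A : ℤ) : ℂ) * (2 * π * I)).im =
      ((n' - n + kk p p' B - kk p p' A : ℤ) : ℝ) * (2 * π) := by
    generalize (n' - n + kk p p' B - kk p p' A : ℤ) = m
    simp
  rw [e5] at e4
  have a1 : π / 2 < arg ((B - p') / (A - p')) := by
    by_contra h
    rcases arg_le_pi_div_two_iff.mp (not_lt.mp h) with h | h <;> linarith
  have a2 := arg_le_pi ((B - p') / (A - p'))
  have a3 : arg ((B - p) / (A - p)) < -(π / 2) := by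
    by_contra h
    rcases neg_pi_div_two_le_arg_iff.mp (not_lt.mp h) with h | h <;> linarith
  have a4 := neg_pi_lt_arg ((B - p) / (A - p))
  have a5 := abs_lt.mp (abs_arg_lt_pi_div_two_iff.mpr (Or.inl h5))
  have a6 := abs_lt.mp (abs_arg_lt_pi_div_two_iff.mpr (Or.inl h6))
  have hm : n' - n + kk p p' B - kk p p' A = 1 := by
    generalize (n' - n + kk p p' B - kk p p' A : ℤ) = m at e4
    have b1 : (0 : ℝ) < m := by
      by_contra h
      nlinarith [Real.pi_pos, not_lt.mp h]
    have b2 : (m : ℝ) < 2 := by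
      by_contra h
      nlinarith [Real.pi_pos, not_lt.mp h]
    have b3 : (0 : ℤ) < m := by exact_mod_cast b1
    have b4 : m < 2 := by exact_mod_cast b2
    omega
  have : n' = n + kk p p' A + -kk p p' B + 1 := by omega
  rw [this]
  push_cast
  rw [F_neg]

lemma telescope (h : ℝ → F) (δ a : ℝ) (hδ : 0 < δ) (S : Finset ℝ) : ∀ b : ℝ, a ≤ b →
    (∀ θ ∈ S, a ≤ θ - δ ∧ θ + δ ≤ b) → (∀ θ ∈ S, ∀ θ' ∈ S, θ < θ' → θ + δ ≤ θ' - δ) →
    (∀ x y, a ≤ x → x ≤ y → y ≤ b → (∀ θ ∈ S, θ < x ∨ y < θ) → h x = h y) →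
    ∑ θ ∈ S, (h (θ - δ) + h (θ + δ)) = h a + h b := by
  induction S using Finset.induction_on_max with
  | empty =>
    intro b hab _ _ h3
    rw [h3 a b le_rfl hab le_rfl (by simp), F_add_self]; simp
  | insert M S hM ih =>
    intro b hab h1 h2 h3
    have hMS : M ∉ S := fun h => lt_irrefl _ (hM M h)
    obtain ⟨h4, h5⟩ := h1 M (Finset.mem_insert_self _ _)
    rw [Finset.sum_insert hMS, ih (M - δ) h4]
    · rw [h3 (M + δ) b (by linarith) h5 le_rfl]
      · have := F_add_self (h (M - δ))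
        linear_combination this
      · intro θ hθ
        left
        rcases Finset.mem_insert.mp hθ with rfl | hθ
        · linarith
        · linarith [hM θ hθ]
    · intro θ hθ
      exact ⟨(h1 θ (Finset.mem_insert_of_mem hθ)).1,
        h2 θ (Finset.mem_insert_of_mem hθ) M (Finset.mem_insert_self _ _) (hM θ hθ)⟩
    · intro θ hθ θ' hθ'
      exact h2 θ (Finset.mem_insert_of_mem hθ) θ' (Finset.mem_insert_of_mem hθ')
    · intro x y hx hxy hy hS
      apply h3 x y hx hxy (by linarith)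
      intro θ hθ
      rcases Finset.mem_insert.mp hθ with rfl | hθ
      · right; linarith
      · exact hS θ hθ

end Pool.Agent.Lib.MP_ffa969_co
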