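import Pool.Agent.Lib.MP_ffa969_co.Normal
import Pool.Agent.Lib.MP_ffa969_co.Wind
import Pool.Agent.Lib.MP_ffa969_co.Whit

set_option autoImplicit false
set_option linter.unusedSectionVars false

namespace Pool.Agent.Lib.MP_ffa969_co

open Complex
open scoped Real Topology

variable {V E : Type} [Fintype V] [DecidableEq V] [Fintype E] [DecidableEq E]

def base (s t : E → V) (d : E × Bool) : V := if d.2 then s d.1 else t d.1

def tip (mid : E → unitInterval → ℂ) (d : E × Bool) : ℂ := if d.2 then mid d.1 0 else mid d.1 1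

/-- the pieces of the normalised drawing -/
noncomputable def piece (s t : E → V) (pos : V → ℂ) (mid : E → unitInterval → ℂ) :
    (E × Bool) ⊕ E → unitInterval → ℂ
  | Sum.inl d => seg (pos (base s t d)) (tip mid d)
  | Sum.inr e => mid e

def pedge : (E × Bool) ⊕ E → E
  | Sum.inl d => d.1
  | Sum.inr e => e

noncomputable def Ind (s t : E → V) (pos : V → ℂ) (mid : E → unitInterval → ℂ) (C : E → F)
    (p : ℂ) : F := ∑ κ, C (pedge κ) * nu (piece s t pos mid κ) p

variable {s t : E → V} {pos : V → ℂ} {ρ : ℝ} {mid : E → unitInterval → ℂ}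

lemma Normal.piece_cont (h : Normal s t pos ρ mid) (κ : (E × Bool) ⊕ E) :
    Continuous (piece s t pos mid κ) := by
  cases κ with
  | inl d => exact continuous_seg _ _
  | inr e => exact h.cont e

lemma sum_ends {C : E → F} (hC : ∑ e, C e • bv s t e = 0) (k : ℂ → F) :
    ∑ κ, C (pedge κ) * (k (piece s t pos mid κ 0) + k (piece s t pos mid κ 1)) = 0 := by
  have h1 : ∑ e, C e * (k (pos (s e)) + k (pos (t e))) = 0 := by
    have := congrArg (fun g => g ⬝ᵥ (fun v => k (pos v))) hC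
    simp only [sum_dotProduct, smul_dotProduct, bv_dot, zero_dotProduct, smul_eq_mul] at this
    exact this
  rw [Fintype.sum_sum_type, Fintype.sum_prod_type, ← Finset.sum_add_distrib, ← h1]
  apply Finset.sum_congr rfl
  intro e _
  simp only [Fintype.sum_bool, pedge, piece, seg_zero, seg_one, base, tip, if_true,
    Bool.false_eq_true, if_false]
  have h2 := F_add_self (C e * k (mid e 0))
  have h3 := F_add_self (C e * k (mid e 1))
  linear_combination h2 + h3

lemma Normal.Ind_near (h : Normal s t pos ρ mid) {C : E → F} (hC : ∑ e, C e • bv s t e = 0)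
    {p p' : ℂ} (hp : ∀ κ, C (pedge κ) ≠ 0 → ∀ a, ‖p' - p‖ < ‖piece s t pos mid κ a - p‖) :
    Ind s t pos mid C p' = Ind s t pos mid C p := by
  have := sum_ends (pos := pos) (mid := mid) hC (fun Z => (kk p p' Z : F))
  rw [← add_zero (Ind s t pos mid C p), ← this, Ind, Ind, ← Finset.sum_add_distrib]
  apply Finset.sum_congr rfl
  intro κ _
  by_cases hκ : C (pedge κ) = 0
  · simp [hκ]
  · rw [nu_near (h.piece_cont κ) (hp κ hκ)]; ring

lemma Normal.exists_ball (h : Normal s t pos ρ mid) (P : (E × Bool) ⊕ E → Prop) {p : ℂ}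
    (hp : ∀ κ, P κ → ∀ a, piece s t pos mid κ a ≠ p) :
    ∃ r > 0, ∀ κ, P κ → ∀ a, r ≤ ‖piece s t pos mid κ a - p‖ := by
  have h1 : IsClosed (⋃ κ : {κ // P κ}, Set.range (piece s t pos mid κ.1)) :=
    isClosed_iUnion_of_finite fun κ => (isCompact_range (h.piece_cont κ.1)).isClosed
  have h2 : p ∈ (⋃ κ : {κ // P κ}, Set.range (piece s t pos mid κ.1))ᶜ := by
    simp only [Set.mem_compl_iff, Set.mem_iUnion, not_exists]
    rintro ⟨κ, hκ⟩ ⟨a, ha⟩
    exact hp κ hκ a ha
  obtain ⟨r, hr, h3⟩ := Metric.isOpen_iff.mp h1.isOpen_compl p h2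
  refine ⟨r, hr, fun κ hκ a => ?_⟩
  by_contra hn
  exact h3 (mem_ball_iff_norm.mpr (not_le.mp hn)) (Set.mem_iUnion.mpr ⟨⟨κ, hκ⟩, a, rfl⟩)

lemma Normal.Ind_const (h : Normal s t pos ρ mid) {C : E → F} (hC : ∑ e, C e • bv s t e = 0)
    {S : Set ℂ} (hS : IsPreconnected S)
    (hp : ∀ p ∈ S, ∀ κ, C (pedge κ) ≠ 0 → ∀ a, piece s t pos mid κ a ≠ p) {p q : ℂ} (hp' : p ∈ S)
    (hq : q ∈ S) : Ind s t pos mid C p = Ind s t pos mid C q := by
  refine hS.constant (fun p hp' => ContinuousAt.continuousWithinAt ?_) hp' hq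
  obtain ⟨r, hr, h1⟩ := h.exists_ball (fun κ => C (pedge κ) ≠ 0) (hp p hp')
  refine (continuousAt_const (y := Ind s t pos mid C p)).congr ?_
  filter_upwards [Metric.ball_mem_nhds p hr] with p' hp'
  exact (h.Ind_near hC fun κ hκ a => (mem_ball_iff_norm.mp hp').trans_le (h1 κ hκ a)).symm

lemma Normal.tip_norm (h : Normal s t pos ρ mid) (d : E × Bool) :
    ‖tip mid d - pos (base s t d)‖ = ρ := by
  obtain ⟨e, _ | _⟩ := d
  · exact h.stop e
  · exact h.start e

lemma tip_mem (d : E × Bool) : ∃ a, tip mid d = mid d.1 a := by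
  obtain ⟨e, _ | _⟩ := d
  · exact ⟨1, rfl⟩
  · exact ⟨0, rfl⟩

lemma Normal.tip_inj (h : Normal s t pos ρ mid) (hne : ∀ e, s e ≠ t e) {d d' : E × Bool}
    (h1 : base s t d = base s t d') (h2 : tip mid d = tip mid d') : d = d' := by
  have h3 : d.1 = d'.1 := by
    by_contra hn
    obtain ⟨a, ha⟩ := tip_mem (mid := mid) d
    obtain ⟨b, hb⟩ := tip_mem (mid := mid) d'
    exact h.disj _ _ a b hn (ha.symm.trans (h2.trans hb))
  obtain ⟨e, _ | _⟩ := d <;> obtain ⟨e', _ | _⟩ := d' <;> simp only at h3 <;> subst h3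
  · rfl
  · exact (hne e (Eq.symm h1)).elim
  · exact (hne e h1).elim
  · rfl

/-- a point of a closed disc lying on a piece -/
lemma Normal.disc_piece (h : Normal s t pos ρ mid) {v : V} {x : ℝ} (hx0 : 0 < x) (hx1 : x ≤ 1)
    {u : ℂ} (hu : ‖u‖ = ρ) {κ : (E × Bool) ⊕ E} {a : unitInterval}
    (hz : piece s t pos mid κ a = pos v + x * u) :
    (∃ d, κ = Sum.inl d ∧ base s t d = v ∧ tip mid d = pos v + u) ∨
      (∃ e, κ = Sum.inr e ∧ x = 1) := by
  have hρ := h.pos_rho
  have hn : ‖(x : ℂ) * u‖ = x * ρ := by rw [norm_mul, hu, norm_real, Real.norm_of_nonneg hx0.le]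
  cases κ with
  | inr e =>
    right
    refine ⟨e, rfl, le_antisymm hx1 ?_⟩
    have := h.out e a v
    rw [show mid e a = _ from hz, add_sub_cancel_left, hn] at this
    nlinarith
  | inl d =>
    left
    simp only [piece, seg] at hz
    have hn' : ‖((a : ℝ) : ℂ) * (tip mid d - pos (base s t d))‖ = a * ρ := by
      rw [norm_mul, h.tip_norm, norm_real, Real.norm_of_nonneg a.2.1]
    have hb : base s t d = v := by
      by_contra hb
      have h1 := h.far _ _ hb
      have h2 : pos (base s t d) - pos v =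
          x * u - ((a : ℝ) : ℂ) * (tip mid d - pos (base s t d)) := by linear_combination hz
      have h3 := norm_sub_le ((x : ℂ) * u) (((a : ℝ) : ℂ) * (tip mid d - pos (base s t d)))
      rw [← h2, hn, hn'] at h3
      nlinarith [a.2.2]
    refine ⟨d, rfl, hb, ?_⟩
    rw [hb] at hz hn'
    have h1 : ((a : ℝ) : ℂ) * (tip mid d - pos v) = x * u := add_left_cancel hz
    have h2 : (a : ℝ) = x := by
      rw [h1, hn] at hn'
      exact (mul_right_cancel₀ hρ.ne' hn').symm
    rw [h2] at h1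
    have := mul_left_cancel₀ (by exact_mod_cast hx0.ne') h1
    linear_combination this

lemma Normal.along (h : Normal s t pos ρ mid) (hne : ∀ e, s e ≠ t e) {C : E → F}
    (hC : ∑ e, C e • bv s t e = 0) (d : E × Bool) (h0 : C d.1 = 0) :
    Ind s t pos mid C (pos (base s t d) + (1 / 2 : ℝ) * (tip mid d - pos (base s t d))) =
      Ind s t pos mid C (mid d.1 0) := by
  have hmid : ∀ b κ, C (pedge κ) ≠ 0 → ∀ a, piece s t pos mid κ a ≠ mid d.1 b := by
    intro b κ hκ a hz
    cases κ with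
    | inr e => exact h.disj e d.1 a b (by rintro rfl; exact hκ h0) hz
    | inl d' =>
      have h1 := h.out d.1 b (base s t d')
      rw [← hz] at h1
      simp only [piece, seg, add_sub_cancel_left] at h1 hz
      rw [norm_mul, h.tip_norm, norm_real, Real.norm_of_nonneg a.2.1] at h1
      have h2 : (a : ℝ) = 1 := le_antisymm a.2.2 (by nlinarith [h.pos_rho])
      rw [h2] at hz
      obtain ⟨c, hc⟩ := tip_mem (mid := mid) d'
      refine h.disj d'.1 d.1 c b (fun he => hκ (by rw [pedge, he]; exact h0)) ?_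
      rw [← hc, ← hz]; simp
  obtain ⟨b, hb⟩ := tip_mem (mid := mid) d
  have h1 : Ind s t pos mid C (mid d.1 b) = Ind s t pos mid C (mid d.1 0) :=
    h.Ind_const hC (isPreconnected_range (h.cont d.1)) (by
      rintro _ ⟨b, rfl⟩; exact hmid b) ⟨b, rfl⟩ ⟨0, rfl⟩
  rw [← h1, ← hb]
  refine h.Ind_const hC (S := (fun x : ℝ => pos (base s t d) + x * (tip mid d - pos (base s t d)))
    '' Set.Icc (1 / 2) 1) (isPreconnected_Icc.image _ (by fun_prop)) ?_
    ⟨1 / 2, ⟨le_rfl, by norm_num⟩, rfl⟩ ⟨1, ⟨by norm_num, le_rfl⟩, by simp⟩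
  rintro _ ⟨x, hx, rfl⟩ κ hκ a hz
  rcases h.disc_piece (by linarith [hx.1]) hx.2 (h.tip_norm d) hz with
    ⟨d', rfl, h2, h3⟩ | ⟨e, rfl, rfl⟩
  · rw [h.tip_inj hne h2 (by rw [h3]; ring)] at hκ
    exact hκ h0
  · refine hmid b _ hκ a ?_
    rw [hz, ← hb]; simp

lemma exists_rotation {D : Type} [Finite D] (w : D → ℂ) (hw : ∀ d, w d ≠ 0) :
    ∃ u : ℂ, ‖u‖ = 1 ∧ ∀ d, arg (w d / u) < π := by
  have hinf : (Set.Ioo (0 : ℝ) π).Infinite := Set.Ioo_infinite Real.pi_pos
  obtain ⟨θ, hθ, hθ'⟩ := hinf.exists_notMem_finite (Set.finite_range fun d => arg (-w d))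
  refine ⟨exp (θ * I), norm_exp_ofReal_mul_I θ, fun d => ?_⟩
  refine lt_of_le_of_ne (arg_le_pi _) fun hd => hθ' ⟨d, ?_⟩
  have h1 := norm_mul_exp_arg_mul_I (w d / exp (θ * I))
  rw [hd, exp_pi_mul_I, norm_div, norm_exp_ofReal_mul_I, div_one,
    eq_div_iff (exp_ne_zero _)] at h1
  have h2 : -w d = ‖w d‖ * exp (θ * I) := by linear_combination h1
  simp only
  rw [h2, arg_real_mul _ (norm_pos_iff.mpr (hw d)), exp_mul_I]
  exact arg_cos_add_sin_mul_I ⟨by linarith [hθ.1, Real.pi_pos], hθ.2.le⟩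

lemma re_pos_of_near {p p' Z : ℂ} (h : ‖p' - p‖ < ‖Z - p‖) : 0 < ((Z - p') / (Z - p)).re := by
  have h0 : Z - p ≠ 0 := norm_pos_iff.mp ((norm_nonneg _).trans_lt h)
  have : (Z - p') / (Z - p) = 1 - (p' - p) / (Z - p) := by field_simp; ring
  rw [this, sub_re, one_re]
  have h1 := re_le_norm ((p' - p) / (Z - p))
  have h2 : ‖(p' - p) / (Z - p)‖ < 1 := by
    rw [norm_div, div_lt_one (norm_pos_iff.mpr h0)]; exact h
  linarith

lemma norm_exp_sub (x y : ℝ) : ‖exp (x * I) - exp (y * I)‖ ≤ |x - y| := by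
  have : exp (x * I) - exp (y * I) = exp (y * I) * (exp (I * ((x - y : ℝ) : ℂ)) - 1) := by
    rw [mul_sub, ← exp_add]; congr 2 <;> [push_cast; skip] <;> ring
  rw [this, norm_mul, norm_exp_ofReal_mul_I, one_mul]
  exact Real.norm_exp_I_mul_ofReal_sub_one_le

end Pool.Agent.Lib.MP_ffa969_co
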